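import Pool.Agent.Run7.h242.SC.Iface

/-!
# Project SC, piece LEV: the level function
-/

set_option autoImplicit false

namespace Pool.Agent.Run7.h942.SC

open Run7.h242.SC
open MeasureTheory Set Filter Topology Metric
open scoped ContDiff ENNReal NNReal

theorem V_pos (j : ℕ) : 0 < V j := by
  unfold V; positivity

theorem V_le (j : ℕ) : V j ≤ 1 / 32 := by
  unfold V
  have : (1 / 2 : ℝ) ^ j ≤ 1 := pow_le_one₀ (by norm_num) (by norm_num)
  linarith

theorem norm_q_le (j : ℕ) : ‖q j‖ ≤ 1 := by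
  unfold q
  rw [Complex.norm_real, Real.norm_eq_abs, abs_of_pos (by positivity)]
  exact pow_le_one₀ (by norm_num) (by norm_num)

theorem T3_sub {p : ℂ × ℝ} (hp : p ∈ T3) : p ∈ Cube := by
  obtain ⟨h1, h2, h3, h4, _⟩ := hp
  exact ⟨h1.le, h2.le, h3.le, h4.le⟩

theorem norm_le_two {z : ℂ} (h1 : |z.re| ≤ 1) (h2 : |z.im| ≤ 1) : ‖z‖ ≤ 2 := by
  have := Complex.norm_le_abs_re_add_abs_im z
  linarith

/-- a tube point of negative level is in the room -/
theorem gam_mem_M3 (hB : S_GAMB) {j : ℕ} {p : ℂ × ℝ} (hp : p ∈ T3) (h : p.2 < 0) :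
    Gam (V j) (q j) p ∈ M3 := by
  obtain ⟨h1, h2, h3, h4, _⟩ := hp
  have e := (hB (V j) (V_pos j) (V_le j) (q j) p h1.le h2.le h4.le).1 h.le
  rw [e]
  refine ⟨?_, h3, h⟩
  have n1 := norm_q_le j
  have n2 : ‖((V j : ℝ) : ℂ) * p.1‖ ≤ 1 / 32 * 2 := by
    rw [norm_mul, Complex.norm_real, Real.norm_eq_abs, abs_of_pos (V_pos j)]
    exact mul_le_mul (V_le j) (norm_le_two h1.le h2.le) (norm_nonneg _) (by norm_num)
  calc ‖q j + (V j : ℂ) * p.1‖ ≤ ‖q j‖ + ‖(V j : ℂ) * p.1‖ := norm_add_le _ _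
    _ ≤ 1 + 1 / 32 * 2 := add_le_add n1 n2
    _ < 3 := by norm_num

/-- a tube point in the room has its depth as its level -/
theorem level_eq (hB : S_GAMB) {j : ℕ} {p : ℂ × ℝ} (hp : p ∈ T3)
    (h : Gam (V j) (q j) p ∈ M3) : (Gam (V j) (q j) p).2 = p.2 := by
  obtain ⟨h1, h2, h3, h4, _⟩ := hp
  have hb := hB (V j) (V_pos j) (V_le j) (q j) p h1.le h2.le h4.le
  rcases le_or_gt p.2 0 with h0 | h0
  · rw [hb.1 h0]
  · have := (hb.2.2.1 h0.le).2.1
    exact absurd h.2.2 (not_lt.2 this)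

open Classical in
/-- the level function -/
noncomputable def lev (w : ℂ × ℝ) : ℝ :=
  if w ∈ M3 then w.2 else
    if h : ∃ a : ℕ × (ℂ × ℝ), a.2 ∈ T3 ∧ w = Gam (V (a.1 + 1)) (q (a.1 + 1)) a.2 then
      (Classical.choose h).2.2 else 0

theorem lev_ok (hI : S_GAMI) (hB : S_GAMB) (hS : S_SEP) : LevOK lev := by
  classical
  refine ⟨fun p hp => by rw [lev, if_pos hp], ?_⟩
  intro j p hp
  by_cases hM : Gam (V (j + 1)) (q (j + 1)) p ∈ M3
  · rw [lev, if_pos hM]
    exact level_eq hB hp hM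
  · have hex : ∃ a : ℕ × (ℂ × ℝ), a.2 ∈ T3 ∧
        Gam (V (j + 1)) (q (j + 1)) p = Gam (V (a.1 + 1)) (q (a.1 + 1)) a.2 := ⟨(j, p), hp, rfl⟩
    rw [lev, if_neg hM, dif_pos hex]
    obtain ⟨h1, h2⟩ := Classical.choose_spec hex
    set a := Classical.choose hex with ha
    have hp0 : 0 ≤ p.2 := by
      by_contra hc
      exact hM (gam_mem_M3 hB hp (not_le.1 hc))
    have ha0 : 0 ≤ a.2.2 := by
      by_contra hc
      apply hM
      rw [h2]
      exact gam_mem_M3 hB h1 (not_le.1 hc)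
    have hj : j = a.1 := by
      by_contra hne
      exact hS.1 j a.1 hne p a.2 (T3_sub hp) (T3_sub h1) hp0 ha0 h2
    rw [← hj] at h2
    obtain ⟨a1, a2, a3, a4, _⟩ := h1
    obtain ⟨b1, b2, b3, b4, _⟩ := hp
    have := hI (V (j + 1)) (V_pos _) (V_le _) (q (j + 1)) ⟨b1.le, b2.le, hp0, b4.le⟩
      ⟨a1.le, a2.le, ha0, a4.le⟩ h2
    rw [← this]

/-- Piece LEV of project SC. -/
theorem t_LEV (hI : S_GAMI) (hB : S_GAMB) (hD : S_GAMD) (hS : S_SEP) : S_LEV := by
  refine ⟨lev, lev_ok hI hB hS, ?_⟩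
  have hok := lev_ok hI hB hS
  intro x hx
  rcases hx with hx | hx
  · -- the room
    have hopen : IsOpen M3 := by
      have h1 : IsOpen {p : ℂ × ℝ | ‖p.1‖ < 3} :=
        isOpen_lt (continuous_norm.comp continuous_fst) continuous_const
      have h2 : IsOpen {p : ℂ × ℝ | -1 < p.2} := isOpen_lt continuous_const continuous_snd
      have h3 : IsOpen {p : ℂ × ℝ | p.2 < 0} := isOpen_lt continuous_snd continuous_const
      exact h1.inter (h2.inter h3)
    obtain ⟨r, hr, hsub⟩ := Metric.isOpen_iff.1 hopen x hx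
    refine ⟨r, hr, fun y hy z hz => ?_⟩
    rw [hok.1 y (hsub hy.1), hok.1 z (hsub hz.1)]
    have : ‖(y - z).2‖ ≤ ‖y - z‖ := norm_snd_le _
    rw [Prod.snd_sub, Real.norm_eq_abs] at this
    have h0 := norm_nonneg (y - z)
    linarith
  · obtain ⟨j, hj⟩ := mem_iUnion.1 hx
    obtain ⟨p, hp, rfl⟩ := hj
    obtain ⟨r, hr, hsub⟩ := hS.2.1 j p hp
    have hv := V_pos (j + 1)
    refine ⟨min r (V (j + 1) ^ 2 / 2), lt_min hr (by positivity), fun y hy z hz => ?_⟩
    have hy1 : ‖y - Gam (V (j + 1)) (q (j + 1)) p‖ < min r (V (j + 1) ^ 2 / 2) := by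
      have := hy.1
      rwa [mem_ball_iff_norm] at this
    have hz1 : ‖z - Gam (V (j + 1)) (q (j + 1)) p‖ < min r (V (j + 1) ^ 2 / 2) := by
      have := hz.1
      rwa [mem_ball_iff_norm] at this
    obtain ⟨py, hpy, hye⟩ := hsub y hy.2 (hy1.trans_le (min_le_left _ _))
    obtain ⟨pz, hpz, hze⟩ := hsub z hz.2 (hz1.trans_le (min_le_left _ _))
    have hyz : ‖y - z‖ ≤ V (j + 1) ^ 2 := by
      have e : y - z = (y - Gam (V (j + 1)) (q (j + 1)) p) -
          (z - Gam (V (j + 1)) (q (j + 1)) p) := by abel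
      rw [e]
      have h1 := hy1.trans_le (min_le_right _ _)
      have h2 := hz1.trans_le (min_le_right _ _)
      have h3 := norm_sub_le (y - Gam (V (j + 1)) (q (j + 1)) p)
        (z - Gam (V (j + 1)) (q (j + 1)) p)
      linarith
    have hly : lev y = py.2 := by rw [← hye]; exact hok.2 j py hpy
    have hlz : lev z = pz.2 := by rw [← hze]; exact hok.2 j pz hpz
    rw [hly, hlz]
    have := hD (V (j + 1)) hv (V_le _) (q (j + 1)) py (T3_sub hpy) pz (T3_sub hpz)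
      (by rw [hye, hze]; exact hyz)
    rwa [hye, hze] at this

end Pool.Agent.Run7.h942.SC
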