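import Pool.Agent.Run7.h242.SC.Iface

/-!
# Project SC, piece NRA: discretisation of the oscillation
-/

set_option autoImplicit false

namespace Pool.Agent.Run7.h942.SC.NRA

open Run7.h242.SC
open MeasureTheory Set Filter Topology Metric
open scoped ContDiff ENNReal NNReal

theorem norm_le_sum {n : ℕ} (x : E n) : ‖x‖ ≤ ∑ i, |x i| := by
  have h0 : 0 ≤ ∑ i, |x i| := Finset.sum_nonneg fun i _ => abs_nonneg _
  have h1 : ‖x‖ ^ 2 ≤ (∑ i, |x i|) ^ 2 := by
    rw [EuclideanSpace.norm_sq_eq, sq (∑ i, |x i|), Finset.sum_mul]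
    refine Finset.sum_le_sum fun i _ => ?_
    rw [Real.norm_eq_abs, sq]
    exact mul_le_mul_of_nonneg_left
      (Finset.single_le_sum (f := fun i => |x i|) (fun i _ => abs_nonneg _) (Finset.mem_univ i))
      (abs_nonneg _)
  exact (pow_le_pow_iff_left₀ (norm_nonneg _) h0 two_ne_zero).1 h1

theorem continuous_cl : Continuous cl := by
  unfold cl
  exact continuous_const.max (continuous_id.min continuous_const)

theorem continuous_rp_re (a b c d : ℝ) : Continuous fun t => (rp a b c d t).re := by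
  unfold rp
  have h := continuous_cl
  exact continuous_const.add (continuous_const.mul
    ((h.comp (continuous_const.mul continuous_id)).sub
      (h.comp ((continuous_const.mul continuous_id).sub continuous_const))))

theorem continuous_rp_im (a b c d : ℝ) : Continuous fun t => (rp a b c d t).im := by
  unfold rp
  have h := continuous_cl
  exact continuous_const.add (continuous_const.mul
    ((h.comp ((continuous_const.mul continuous_id).sub continuous_const)).sub
      (h.comp ((continuous_const.mul continuous_id).sub continuous_const))))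

theorem continuous_loop {m : ℕ} :
    Continuous (fun a : E (m + 3) × ℝ => loopPt a.1 a.2) := by
  unfold loopPt
  refine (PiLp.continuous_toLp 2 _).comp (continuous_pi fun i => ?_)
  have hc : ∀ j : Fin (m + 3), Continuous fun a : E (m + 3) × ℝ => a.1 j := fun j => by fun_prop
  have h1 := (continuous_rp_re (-3 / 128) (3 / 128) (-1 / 4) (1 / 4)).comp
    (continuous_snd : Continuous fun a : E (m + 3) × ℝ => a.2)
  have h2 := (continuous_rp_im (-3 / 128) (3 / 128) (-1 / 4) (1 / 4)).comp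
    (continuous_snd : Continuous fun a : E (m + 3) × ℝ => a.2)
  by_cases i0 : i = 0
  · simp only [i0, if_true]
    exact (continuous_const.add h1).add (hc 0)
  · by_cases i2 : i = 2
    · simp only [i2, ne20, if_true, if_false]
      exact (continuous_const.add h2).add (hc 2)
    · by_cases i1 : i = 1
      · simp only [i1, ne10, ne21.symm, if_true, if_false]
        exact hc 1
      · simp only [i0, i1, i2, if_false]
        exact continuous_const.add (hc i)

theorem isCompact_box (m : ℕ) : IsCompact {τ : E (m + 3) | ∀ i, |τ i| ≤ 1 / 512} := by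
  apply Metric.isCompact_of_isClosed_isBounded
  · rw [setOf_forall]
    refine isClosed_iInter fun i => ?_
    exact isClosed_le (continuous_abs.comp (by fun_prop)) continuous_const
  · refine (Metric.isBounded_iff_subset_closedBall 0).2 ⟨∑ _i : Fin (m + 3), 1 / 512, ?_⟩
    intro τ hτ
    rw [mem_closedBall_zero_iff]
    exact (norm_le_sum τ).trans (Finset.sum_le_sum fun i _ => hτ i)

theorem telescope (w : ℕ → ℝ) (n : ℕ) : ∀ a b : ℕ, a ≤ b → b ≤ n →
    |w b - w a| ≤ ∑ l ∈ Finset.range n, |w (l + 1) - w l| := by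
  intro a b hab hbn
  have h1 : w b - w a = ∑ l ∈ Finset.Ico a b, (w (l + 1) - w l) :=
    (Finset.sum_Ico_sub w hab).symm
  rw [h1]
  refine (Finset.abs_sum_le_sum_abs _ _).trans ?_
  refine Finset.sum_le_sum_of_subset_of_nonneg ?_ fun _ _ _ => abs_nonneg _
  intro l hl
  rw [Finset.mem_Ico] at hl
  rw [Finset.mem_range]
  omega

/-- Piece NRA of project SC. -/
theorem t_NRA (hL : S_LOOP) : S_NRA := by
  intro m F W hF hW hloc hosc
  set B : Set (E (m + 3)) := {τ : E (m + 3) | ∀ i, |τ i| ≤ 1 / 512} with hB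
  have hBc : IsCompact B := isCompact_box m
  set K' : Set (E (m + 3) × ℝ) := B ×ˢ Icc (0 : ℝ) 1 with hK'
  have hK'c : IsCompact K' := hBc.prod isCompact_Icc
  set Φ : E (m + 3) × ℝ → E (m + 3) := fun a => loopPt a.1 a.2 with hΦ
  have hΦc : Continuous Φ := continuous_loop
  have hmap : ∀ a ∈ K', Φ a ∈ Om m := by
    rintro ⟨τ, t⟩ ⟨h1, h2⟩
    exact (((hL m).2 τ h1).1 t h2).1
  have hKc : IsCompact (Φ '' K') := hK'c.image hΦc
  choose! r hr hrc using hloc
  obtain ⟨δ₁, hδ₁, hleb⟩ := lebesgue_number_lemma_of_metric (s := Φ '' K')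
    (c := fun x : Om m => ball (x : E (m + 3)) (r x)) hKc (fun _ => isOpen_ball) (by
      rintro _ ⟨a, ha, rfl⟩
      exact mem_iUnion.2 ⟨⟨Φ a, hmap a ha⟩, mem_ball_self (hr _ (hmap a ha))⟩)
  have hg : ContinuousOn (fun a => W (Φ a)) K' := hW.comp hΦc.continuousOn hmap
  have hgu := hK'c.uniformContinuousOn_of_continuous hg
  have hΦu := hK'c.uniformContinuousOn_of_continuous hΦc.continuousOn
  rw [Metric.uniformContinuousOn_iff] at hgu hΦu
  obtain ⟨δ₂, hδ₂, hgu⟩ := hgu (1 / 16) (by norm_num)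
  obtain ⟨δ₃, hδ₃, hΦu⟩ := hΦu δ₁ hδ₁
  obtain ⟨N, hN⟩ := exists_nat_gt (1 / min δ₂ δ₃)
  have hmin : 0 < min δ₂ δ₃ := lt_min hδ₂ hδ₃
  have hN0' : (0 : ℝ) < N := lt_trans (by positivity) hN
  have hN0 : 0 < N := by exact_mod_cast hN0'
  have hNs : 1 / (4 * (N : ℝ)) < min δ₂ δ₃ := by
    have h1 : 1 / (N : ℝ) < min δ₂ δ₃ := by
      rw [div_lt_iff₀ hN0']
      rw [div_lt_iff₀ hmin] at hN
      linarith
    refine lt_of_le_of_lt ?_ h1
    exact one_div_le_one_div_of_le hN0' (by linarith)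
  have h4N : (0 : ℝ) < 4 * N := by positivity
  refine ⟨N, hN0, fun τ hτ => ?_⟩
  set w : ℕ → ℝ := fun l => W (loopPt τ ((l : ℝ) / (4 * N))) with hw
  have hgrid : ∀ l : ℕ, l ≤ 4 * N → (l : ℝ) / (4 * N) ∈ Icc (0 : ℝ) 1 := by
    intro l hl
    refine ⟨by positivity, ?_⟩
    rw [div_le_one h4N]
    exact_mod_cast hl
  -- consecutive vertices
  have hstep : ∀ l ∈ Finset.range (4 * N), |w (l + 1) - w l| ≤
      4 * ∑ i : Fin (m + 3),
        |F (loopPt τ (((l : ℝ) + 1) / (4 * N))) i - F (loopPt τ ((l : ℝ) / (4 * N))) i| := by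
    intro l hl
    rw [Finset.mem_range] at hl
    have m1 : (τ, (l : ℝ) / (4 * N)) ∈ K' := ⟨hτ, hgrid l hl.le⟩
    have m2 : (τ, ((l : ℝ) + 1) / (4 * N)) ∈ K' := by
      refine ⟨hτ, ?_⟩
      have := hgrid (l + 1) hl
      push_cast at this
      exact this
    have hd : dist (τ, (l : ℝ) / (4 * N)) (τ, ((l : ℝ) + 1) / (4 * N)) < min δ₂ δ₃ := by
      rw [Prod.dist_eq, dist_self, Real.dist_eq]
      have e : (l : ℝ) / (4 * N) - ((l : ℝ) + 1) / (4 * N) = -(1 / (4 * N)) := by ring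
      rw [e, abs_neg, abs_of_pos (by positivity)]
      exact max_lt hmin hNs
    have hd1 := hΦu _ m1 _ m2 (hd.trans_le (min_le_right _ _))
    obtain ⟨x, hx⟩ := hleb (Φ (τ, (l : ℝ) / (4 * N))) ⟨_, m1, rfl⟩
    have hb1 : Φ (τ, (l : ℝ) / (4 * N)) ∈ ball (x : E (m + 3)) (r x) :=
      hx (mem_ball_self hδ₁)
    have hb2 : Φ (τ, ((l : ℝ) + 1) / (4 * N)) ∈ ball (x : E (m + 3)) (r x) := by
      apply hx
      rw [mem_ball, dist_comm]
      exact hd1
    have h1 := hrc x x.2 _ ⟨hb2, hmap _ m2⟩ _ ⟨hb1, hmap _ m1⟩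
    have h2 := norm_le_sum (F (Φ (τ, ((l : ℝ) + 1) / (4 * N))) - F (Φ (τ, (l : ℝ) / (4 * N))))
    have e1 : w (l + 1) = W (Φ (τ, ((l : ℝ) + 1) / (4 * N))) := by
      simp only [hw, hΦ]
      push_cast
      rfl
    have e2 : w l = W (Φ (τ, (l : ℝ) / (4 * N))) := rfl
    rw [e1, e2]
    refine h1.trans ?_
    have h3 : ∑ i, |(F (Φ (τ, ((l : ℝ) + 1) / (4 * N))) - F (Φ (τ, (l : ℝ) / (4 * N)))) i| =
        ∑ i : Fin (m + 3),
        |F (loopPt τ (((l : ℝ) + 1) / (4 * N))) i - F (loopPt τ ((l : ℝ) / (4 * N))) i| := by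
      refine Finset.sum_congr rfl fun i _ => ?_
      simp [hΦ]
    rw [h3] at h2
    linarith
  -- the two grid points
  obtain ⟨s, hs, t, ht, hst⟩ := hosc τ hτ
  have happ : ∀ u ∈ Icc (0 : ℝ) 1, ∃ a : ℕ, a ≤ 4 * N ∧ |W (loopPt τ u) - w a| < 1 / 16 := by
    intro u hu
    have hu4 : 0 ≤ 4 * (N : ℝ) * u := mul_nonneg h4N.le hu.1
    refine ⟨⌊4 * (N : ℝ) * u⌋₊, ?_, ?_⟩
    · have : ((⌊4 * (N : ℝ) * u⌋₊ : ℕ) : ℝ) ≤ 4 * N := by
        refine (Nat.floor_le hu4).trans ?_
        nlinarith [hu.2]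
      exact_mod_cast this
    · have hfl : ((⌊4 * (N : ℝ) * u⌋₊ : ℕ) : ℝ) ≤ 4 * N * u := Nat.floor_le hu4
      have hfl2 : 4 * (N : ℝ) * u < (⌊4 * (N : ℝ) * u⌋₊ : ℕ) + 1 := Nat.lt_floor_add_one _
      have hle : ⌊4 * (N : ℝ) * u⌋₊ ≤ 4 * N := by
        have : ((⌊4 * (N : ℝ) * u⌋₊ : ℕ) : ℝ) ≤ 4 * N := by
          refine hfl.trans ?_
          nlinarith [hu.2]
        exact_mod_cast this
      have m1 : (τ, u) ∈ K' := ⟨hτ, hu⟩
      have m2 : (τ, ((⌊4 * (N : ℝ) * u⌋₊ : ℕ) : ℝ) / (4 * N)) ∈ K' := ⟨hτ, hgrid _ hle⟩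
      have hd : dist (τ, u) (τ, ((⌊4 * (N : ℝ) * u⌋₊ : ℕ) : ℝ) / (4 * N)) < min δ₂ δ₃ := by
        rw [Prod.dist_eq, dist_self, Real.dist_eq]
        refine max_lt hmin (lt_of_le_of_lt ?_ hNs)
        have e : u - ((⌊4 * (N : ℝ) * u⌋₊ : ℕ) : ℝ) / (4 * N) =
            (4 * N * u - (⌊4 * (N : ℝ) * u⌋₊ : ℕ)) / (4 * N) := by
          field_simp
        rw [e, abs_of_nonneg (div_nonneg (by linarith) h4N.le)]
        exact div_le_div_of_nonneg_right (by linarith) h4N.le
      have := hgu _ m1 _ m2 (hd.trans_le (min_le_left _ _))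
      rw [Real.dist_eq] at this
      exact this
  obtain ⟨a, ha, ha2⟩ := happ s hs
  obtain ⟨b, hb, hb2⟩ := happ t ht
  have hab : 1 / 8 ≤ |w a - w b| := by
    have e : W (loopPt τ s) - W (loopPt τ t) =
        (W (loopPt τ s) - w a) + (w a - w b) - (W (loopPt τ t) - w b) := by ring
    have h1 : |W (loopPt τ s) - W (loopPt τ t)| ≤
        |W (loopPt τ s) - w a| + |w a - w b| + |W (loopPt τ t) - w b| := by
      rw [e]
      refine (abs_sub _ _).trans ?_
      have := abs_add_le (W (loopPt τ s) - w a) (w a - w b)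
      linarith
    linarith
  have htel : |w a - w b| ≤ ∑ l ∈ Finset.range (4 * N), |w (l + 1) - w l| := by
    rcases le_total a b with h | h
    · rw [abs_sub_comm]
      exact telescope w (4 * N) a b h hb
    · exact telescope w (4 * N) b a h ha
  exact hab.trans (htel.trans (Finset.sum_le_sum hstep))

end Pool.Agent.Run7.h942.SC.NRA
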