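import Pool.Agent.Run7.h942.SC.Four
import Pool.Agent.Y63.AWC.Deg

/-!
# André's supercharacter theory
-/

set_option linter.unusedSectionVars false
set_option linter.style.haveILetI false

open scoped BigOperators Classical

noncomputable section

namespace Pool.Agent.Run7.h942.SC

open Pool.Agent.Helper884.IC Pool.Agent.Y63.AWC

/-! ### general finite groups -/

section General

variable {G : Type} [Group G] [Fintype G]

instance : Finite {χ : G → ℂ // IsIrrChar χ} := irr_finite.to_subtype
instance : Fintype {χ : G → ℂ // IsIrrChar χ} := Fintype.ofFinite _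

/-- convolution of a class function with an irreducible character -/
lemma conv_irr (f : G → ℂ) (hf : IsClass f) {ψ : G → ℂ} (h : IsIrrChar ψ) :
    ∃ c : ℂ, ∀ g : G, ∑ k : G, f (g * k⁻¹) * ψ k = c * ψ g := by
  obtain ⟨V, _, _, _, rho, hr, rfl⟩ := h
  obtain ⟨c, hc⟩ := top_scalar rho hr f hf
  refine ⟨c, fun g => ?_⟩
  have h1 : ∑ k : G, f (g * k⁻¹) * rho.character k = ∑ k : G, f k * rho.character (k⁻¹ * g) := by
    rw [← Equiv.sum_comp ((Equiv.inv G).trans (Equiv.mulRight g))
      (fun k => f (g * k⁻¹) * rho.character k)]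
    refine Finset.sum_congr rfl fun k _ => ?_
    simp only [Equiv.trans_apply, Equiv.inv_apply, Equiv.coe_mulRight, mul_inv_rev, inv_inv]
    congr 2
    group
  have h2 : LinearMap.trace ℂ V (Helper884.IC.Top rho f ∘ₗ rho g)
      = ∑ k : G, f k * rho.character (k⁻¹ * g) := by
    rw [← Module.End.mul_eq_comp, Helper884.IC.Top, Finset.sum_mul, map_sum]
    refine Finset.sum_congr rfl fun k _ => ?_
    rw [smul_mul_assoc, map_smul, smul_eq_mul, Representation.character, rho.map_mul]
  rw [h1, ← h2, hc, LinearMap.smul_comp, map_smul, LinearMap.id_comp, smul_eq_mul]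
  rfl

lemma superchar_eq (r : Setoid {χ : G → ℂ // IsIrrChar χ}) (χ : {χ : G → ℂ // IsIrrChar χ})
    (g : G) : superchar r χ g = ∑ ψ : {χ : G → ℂ // IsIrrChar χ}, if r χ ψ then ψ.1 1 * ψ.1 g else 0 := by
  unfold superchar
  rw [← Finset.sum_filter, finsum_mem_eq_finite_toFinset_sum _ (Set.toFinite _)]
  refine Finset.sum_congr ?_ fun _ _ => rfl
  ext μ
  simp

lemma sum_irr (f : (G → ℂ) → ℂ) :
    ∑ χ ∈ Irr G, f χ = ∑ ψ : {χ : G → ℂ // IsIrrChar χ}, f ψ.1 := by
  rw [Finset.sum_subtype (p := fun χ => IsIrrChar χ) (F := inferInstance) _ (fun χ => mem_Irr)]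

lemma B_superchar (r : Setoid {χ : G → ℂ // IsIrrChar χ}) (χ ψ : {χ : G → ℂ // IsIrrChar χ}) :
    B (superchar r χ) ψ.1 = if r χ ψ then ψ.1 1 else 0 := by
  have h1 : superchar r χ = ∑ φ : {χ : G → ℂ // IsIrrChar χ},
      (if r χ φ then φ.1 1 else 0) • φ.1 := by
    funext g
    rw [superchar_eq, Finset.sum_apply]
    refine Finset.sum_congr rfl fun φ _ => ?_
    rw [Pi.smul_apply, smul_eq_mul, ite_mul, zero_mul]
  rw [h1, B_sum_left]
  simp only [B_smul_left]
  rw [Finset.sum_eq_single ψ]
  · rw [B_irr ψ.2 ψ.2, if_pos rfl, mul_one]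
  · intro φ _ hφ
    rw [B_irr φ.2 ψ.2, if_neg (fun e => hφ (Subtype.ext e)), mul_zero]
  · intro h
    exact absurd (Finset.mem_univ _) h

lemma superchar_of_B (r : Setoid {χ : G → ℂ // IsIrrChar χ}) (χ : {χ : G → ℂ // IsIrrChar χ})
    (f : G → ℂ) (hf : IsClass f) (h : ∀ ψ : {χ : G → ℂ // IsIrrChar χ},
      B f ψ.1 = if r χ ψ then ψ.1 1 else 0) : superchar r χ = f := by
  rw [expand f hf]
  funext g
  rw [superchar_eq, Finset.sum_apply, sum_irr (fun χ => (B f χ • χ) g)]
  refine Finset.sum_congr rfl fun φ _ => ?_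
  rw [Pi.smul_apply, smul_eq_mul, h φ, ite_mul, zero_mul]

/-- the functions that are constant on the blocks -/
def constOn (s : Setoid G) : Submodule ℂ (G → ℂ) where
  carrier := {f | ∀ g h, s g h → f g = f h}
  add_mem' := by
    intro a b ha hb g h e
    rw [Pi.add_apply, Pi.add_apply, ha g h e, hb g h e]
  zero_mem' := fun _ _ _ => rfl
  smul_mem' := by
    intro c x hx g h e
    rw [Pi.smul_apply, Pi.smul_apply, hx g h e]

lemma finrank_constOn (s : Setoid G) :
    Module.finrank ℂ (constOn s) ≤ Nat.card (Quotient s) := by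
  haveI : Fintype (Quotient s) := Fintype.ofFinite _
  rw [Nat.card_eq_fintype_card, ← Module.finrank_fintype_fun_eq_card ℂ]
  let L : constOn s →ₗ[ℂ] (Quotient s → ℂ) :=
    { toFun := fun f q => f.1 q.out
      map_add' := fun _ _ => rfl
      map_smul' := fun _ _ => rfl }
  apply LinearMap.finrank_le_finrank_of_injective (f := L)
  intro f f' e
  apply Subtype.ext
  funext g
  have h1 := congrFun e (Quotient.mk s g)
  have h2 : s (Quotient.mk s g).out g := Quotient.mk_out g
  have h3 : f.1 (Quotient.mk s g).out = f'.1 (Quotient.mk s g).out := h1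
  rw [← f.2 _ _ h2, ← f'.2 _ _ h2, h3]

/-- If the classes of `T` are unions of classes of `T'`, then the same is true for the blocks of
irreducible characters. -/
theorem chars_le {T T' : SuperTheory G} (hle : T'.classes ≤ T.classes) : T'.chars ≤ T.chars := by
  haveI : Fintype (Quotient T'.chars) := Fintype.ofFinite _
  let σ : Quotient T'.chars → constOn T'.classes := fun q =>
    ⟨superchar T'.chars q.out, fun g h e => T'.const q.out g h e⟩
  have hB : ∀ (q : Quotient T'.chars) (ψ : {χ : G → ℂ // IsIrrChar χ}),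
      B (σ q).1 ψ.1 = if q = Quotient.mk T'.chars ψ then ψ.1 1 else 0 := by
    intro q ψ
    show B (superchar T'.chars q.out) ψ.1 = _
    rw [B_superchar]
    have : T'.chars q.out ψ ↔ q = Quotient.mk T'.chars ψ := by
      constructor
      · intro h
        rw [← Quotient.out_eq q]
        exact Quotient.sound h
      · intro h
        subst h
        exact Quotient.mk_out ψ
    simp only [this]
  have hBs : ∀ (a : Quotient T'.chars → ℂ) (ψ : {χ : G → ℂ // IsIrrChar χ}),
      B (∑ q, a q • σ q : constOn T'.classes).1 ψ.1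
        = a (Quotient.mk T'.chars ψ) * ψ.1 1 := by
    intro a ψ
    have h1 : (∑ q, a q • σ q : constOn T'.classes).1 = ∑ q, a q • (σ q).1 := by
      rw [Submodule.coe_sum]; rfl
    rw [h1, B_sum_left]
    simp only [B_smul_left, hB]
    rw [Finset.sum_eq_single (Quotient.mk T'.chars ψ)]
    · rw [if_pos rfl]
    · intro q _ hq
      rw [if_neg hq, mul_zero]
    · intro h
      exact absurd (Finset.mem_univ _) h
  have hli : LinearIndependent ℂ σ := by
    rw [Fintype.linearIndependent_iff]
    intro a ha q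
    have h1 := hBs a q.out
    rw [ha] at h1
    have h2 : B ((0 : constOn T'.classes).1) q.out.1 = 0 := by
      show B (0 : G → ℂ) _ = 0
      simp [B]
    rw [h2, Quotient.out_eq] at h1
    rcases mul_eq_zero.mp h1.symm with h3 | h3
    · exact h3
    · exact absurd h3 (one_ne q.out.2)
  have hspan : Submodule.span ℂ (Set.range σ) = ⊤ := by
    apply hli.span_eq_top_of_card_eq_finrank'
    apply le_antisymm hli.fintype_card_le_finrank
    have := finrank_constOn T'.classes
    rw [← T'.card_eq, Nat.card_eq_fintype_card] at this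
    exact this
  intro χ ψ hχψ
  let s : constOn T'.classes := ⟨superchar T.chars χ, fun g h e => T.const χ g h (hle e)⟩
  have hs : s ∈ Submodule.span ℂ (Set.range σ) := by rw [hspan]; trivial
  obtain ⟨a, ha⟩ := (Submodule.mem_span_range_iff_exists_fun ℂ).mp hs
  have h1 := hBs a χ
  have h2 := hBs a ψ
  rw [ha] at h1 h2
  have h3 : Quotient.mk T'.chars χ = Quotient.mk T'.chars ψ := Quotient.sound hχψ
  have h4 : B s.1 χ.1 = if T.chars χ χ then χ.1 1 else 0 := B_superchar T.chars χ χ
  have h5 : B s.1 ψ.1 = if T.chars χ ψ then ψ.1 1 else 0 := B_superchar T.chars χ ψ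
  rw [if_pos (T.chars.refl χ)] at h4
  rw [h4] at h1
  have h6 : a (Quotient.mk T'.chars χ) = 1 := by
    have h7 := one_ne χ.2
    have h8 : (1 - a (Quotient.mk T'.chars χ)) * χ.1 1 = 0 := by
      rw [sub_mul, one_mul, ← h1, sub_self]
    rcases mul_eq_zero.mp h8 with h9 | h9
    · exact (sub_eq_zero.mp h9).symm
    · exact absurd h9 h7
  rw [← h3, h6, one_mul] at h2
  by_contra hn
  rw [if_neg hn] at h5
  exact one_ne ψ.2 (h2.symm.trans h5)

end General

/-- a counting lemma -/
lemma card_quot_le {X Y : Type} [Finite X] [Finite Y] (r : Setoid X) (s : Setoid Y)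
    (T : (X → ℂ) →ₗ[ℂ] (Y → ℂ)) (hinj : Function.Injective T)
    (hT : ∀ f : X → ℂ, (∀ x x', r x x' → f x = f x') → ∀ y y', s y y' → T f y = T f y') :
    Nat.card (Quotient r) ≤ Nat.card (Quotient s) := by
  haveI : Fintype (Quotient s) := Fintype.ofFinite _
  haveI : Fintype (Quotient r) := Fintype.ofFinite _
  rw [Nat.card_eq_fintype_card, Nat.card_eq_fintype_card, ← Module.finrank_fintype_fun_eq_card ℂ,
    ← Module.finrank_fintype_fun_eq_card ℂ]
  let L : (Quotient r → ℂ) →ₗ[ℂ] (Quotient s → ℂ) :=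
    { toFun := fun f q => T (fun x => f (Quotient.mk r x)) q.out
      map_add' := by
        intro f f'
        funext q
        have : (fun x => (f + f') (Quotient.mk r x))
            = (fun x => f (Quotient.mk r x)) + (fun x => f' (Quotient.mk r x)) := rfl
        rw [this, map_add]
        rfl
      map_smul' := by
        intro c f
        funext q
        have : (fun x => (c • f) (Quotient.mk r x)) = c • (fun x => f (Quotient.mk r x)) := rfl
        rw [this, map_smul]
        rfl }
  apply LinearMap.finrank_le_finrank_of_injective (f := L)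
  intro f f' e
  have h1 : T (fun x => f (Quotient.mk r x)) = T (fun x => f' (Quotient.mk r x)) := by
    funext y
    have h2 := congrFun e (Quotient.mk s y)
    have h3 : s (Quotient.mk s y).out y := Quotient.mk_out y
    have h4 : T (fun x => f (Quotient.mk r x)) (Quotient.mk s y).out
        = T (fun x => f' (Quotient.mk r x)) (Quotient.mk s y).out := h2
    rw [← hT _ (fun x x' hx => by rw [Quotient.sound hx]) _ _ h3,
      ← hT _ (fun x x' hx => by rw [Quotient.sound hx]) _ _ h3, h4]
  have h5 := hinj h1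
  funext q
  obtain ⟨x, rfl⟩ := Quotient.exists_rep q
  exact congrFun h5 x

/-! ### the unitriangular group -/

variable {n : ℕ} {F : Type} [Field F]

variable (n F) in
/-- the superclasses -/
def classSetoid : Setoid (Uni n F) where
  r := AndreClasses
  iseqv :=
    { refl := fun g => ⟨1, 1, by rw [mat_one, one_mul, mul_one]⟩
      symm := by
        rintro g h ⟨u, v, e⟩
        refine ⟨u⁻¹, v⁻¹, ?_⟩
        rw [e]
        simp only [← mul_assoc]
        rw [mat_inv_mul, one_mul, mul_assoc, mat_mul_inv, mul_one]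
      trans := by
        rintro g h k ⟨u, v, e⟩ ⟨u', v', e'⟩
        refine ⟨u' * u, v * v', ?_⟩
        rw [e', e, mat_mul, mat_mul]
        simp only [mul_assoc] }

lemma class_iff {g h : Uni n F} :
    classSetoid n F g h ↔ ∃ u v : Uni n F, sub1 h = twist u v (sub1 g) := by
  constructor
  · rintro ⟨u, v, e⟩
    exact ⟨u, v, Subtype.ext e⟩
  · rintro ⟨u, v, e⟩
    exact ⟨u, v, congrArg Subtype.val e⟩

variable [Finite F]

/-- the Fourier support of an irreducible character lies in a single two-sided orbit -/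
lemma irr_proj {θ : AddChar F ℂ} (hθ : θ ≠ 1) {ψ : Uni n F → ℂ} (h : IsIrrChar ψ)
    (lam : Module.Dual F (Nil n F)) :
    (∀ μ, orbSetoid n F lam μ → hat θ ψ μ = 0) ∨ (∀ μ, hat θ ψ μ ≠ 0 → orbSetoid n F lam μ) := by
  obtain ⟨c, hc⟩ := conv_irr (orbitSum θ lam) (orbitSum_class θ lam) h
  have h1 : ∀ g, (Fintype.card (Nil n F) : ℂ) * ∑ μ : Module.Dual F (Nil n F),
      (if orbSetoid n F lam μ then hat θ ψ μ * θ (μ (sub1 g)) else 0) = c * ψ g := by
    intro g
    rw [← conv_orbit, hc]
  have h2 : ∀ μ, (Fintype.card (Nil n F) : ℂ) * (if orbSetoid n F lam μ then hat θ ψ μ else 0)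
      = c * hat θ ψ μ := by
    intro μ
    rw [← hat_comb hθ (fun μ => (Fintype.card (Nil n F) : ℂ)
      * (if orbSetoid n F lam μ then hat θ ψ μ else 0)) μ,
      ← hat_comb hθ (fun μ => c * hat θ ψ μ) μ]
    congr 1
    funext g
    have e1 : ∑ ν : Module.Dual F (Nil n F), c * hat θ ψ ν * θ (ν (sub1 g)) = c * ψ g := by
      conv_rhs => rw [expand_hat hθ ψ g]
      rw [Finset.mul_sum]
      refine Finset.sum_congr rfl fun ν _ => ?_
      ring
    rw [e1, ← h1 g, Finset.mul_sum]
    refine Finset.sum_congr rfl fun ν _ => ?_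
    split_ifs <;> ring
  by_cases hc0 : c = 0
  · left
    intro μ hμ
    have h3 := h2 μ
    rw [if_pos hμ, hc0, zero_mul] at h3
    rcases mul_eq_zero.mp h3 with h4 | h4
    · exact absurd h4 N_ne
    · exact h4
  · right
    intro μ hμ
    by_contra hn
    have h3 := h2 μ
    rw [if_neg hn, mul_zero] at h3
    rcases mul_eq_zero.mp h3.symm with h4 | h4
    · exact hc0 h4
    · exact hμ h4

lemma exists_hat_ne {θ : AddChar F ℂ} (hθ : θ ≠ 1) {ψ : Uni n F → ℂ} (h : IsIrrChar ψ) :
    ∃ μ, hat θ ψ μ ≠ 0 := by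
  by_contra hn
  push Not at hn
  apply one_ne h
  rw [expand_hat hθ ψ 1]
  refine Finset.sum_eq_zero fun μ _ => ?_
  rw [hn μ, zero_mul]

/-- a functional in the Fourier support -/
def pick {θ : AddChar F ℂ} (hθ : θ ≠ 1) (ψ : {χ : Uni n F → ℂ // IsIrrChar χ}) :
    Module.Dual F (Nil n F) := (exists_hat_ne hθ ψ.2).choose

lemma pick_spec {θ : AddChar F ℂ} (hθ : θ ≠ 1) (ψ : {χ : Uni n F → ℂ // IsIrrChar χ}) :
    hat θ ψ.1 (pick hθ ψ) ≠ 0 := (exists_hat_ne hθ ψ.2).choose_spec

lemma supp {θ : AddChar F ℂ} (hθ : θ ≠ 1) (ψ : {χ : Uni n F → ℂ // IsIrrChar χ})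
    {μ : Module.Dual F (Nil n F)} (h : hat θ ψ.1 μ ≠ 0) : orbSetoid n F (pick hθ ψ) μ := by
  rcases irr_proj hθ ψ.2 (pick hθ ψ) with h1 | h1
  · exact absurd (h1 _ ((orbSetoid n F).refl _)) (pick_spec hθ ψ)
  · exact h1 μ h

lemma B_orbit {θ : AddChar F ℂ} (hθ : θ ≠ 1) (lam : Module.Dual F (Nil n F))
    (ψ : {χ : Uni n F → ℂ // IsIrrChar χ}) :
    B (orbitSum θ lam) ψ.1 = if orbSetoid n F lam (pick hθ ψ) then ψ.1 1 else 0 := by
  have h1 : B (orbitSum θ lam) ψ.1 = ∑ μ : Module.Dual F (Nil n F),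
        if orbSetoid n F lam μ then hat θ ψ.1 μ * θ (μ (sub1 1)) else 0 := by
    have h2 := conv_orbit θ lam ψ.1 1
    have h3 : ∑ h : Uni n F, orbitSum θ lam (1 * h⁻¹) * ψ.1 h
        = ∑ h : Uni n F, orbitSum θ lam h * ψ.1 h⁻¹ := by
      rw [← Equiv.sum_comp (Equiv.inv (Uni n F)) (fun h => orbitSum θ lam h * ψ.1 h⁻¹)]
      refine Finset.sum_congr rfl fun h _ => ?_
      simp
    unfold B
    rw [← h3, h2, Nat.card_eq_fintype_card, card_grp, ← mul_assoc, inv_mul_cancel₀ N_ne, one_mul]
  rw [h1]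
  split_ifs with h
  · conv_rhs => rw [expand_hat hθ ψ.1 1]
    refine Finset.sum_congr rfl fun μ _ => ?_
    split_ifs with h4
    · rfl
    · by_cases h5 : hat θ ψ.1 μ = 0
      · rw [h5, zero_mul]
      · exact absurd ((orbSetoid n F).trans h (supp hθ ψ h5)) h4
  · refine Finset.sum_eq_zero fun μ _ => ?_
    split_ifs with h4
    · by_cases h5 : hat θ ψ.1 μ = 0
      · rw [h5, zero_mul]
      · exact absurd ((orbSetoid n F).trans h4 ((orbSetoid n F).symm (supp hθ ψ h5))) h
    · rfl

/-- the partition of `Irr` -/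
def charSetoid {θ : AddChar F ℂ} (hθ : θ ≠ 1) : Setoid {χ : Uni n F → ℂ // IsIrrChar χ} :=
  Setoid.comap (pick hθ) (orbSetoid n F)

lemma char_iff {θ : AddChar F ℂ} (hθ : θ ≠ 1) {χ ψ : {χ : Uni n F → ℂ // IsIrrChar χ}} :
    charSetoid hθ χ ψ ↔ orbSetoid n F (pick hθ χ) (pick hθ ψ) := Iff.rfl

lemma superchar_pick {θ : AddChar F ℂ} (hθ : θ ≠ 1) (χ : {χ : Uni n F → ℂ // IsIrrChar χ}) :
    superchar (charSetoid hθ) χ = orbitSum θ (pick hθ χ) := by
  apply superchar_of_B _ _ _ (orbitSum_class θ _)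
  intro ψ
  rw [B_orbit hθ]
  rfl

lemma orbitSum_one (θ : AddChar F ℂ) (lam : Module.Dual F (Nil n F)) :
    ∃ m : ℕ, 0 < m ∧ orbitSum θ lam 1 = m := by
  refine ⟨(Finset.univ.filter (fun μ => orbSetoid n F lam μ)).card, ?_, ?_⟩
  · exact Finset.card_pos.mpr ⟨lam, by simp⟩
  · rw [orbitSum_eq, ← Finset.sum_filter]
    have : ∀ μ : Module.Dual F (Nil n F), θ (μ (sub1 1)) = 1 := by
      intro μ
      rw [sub1_one, map_zero, AddChar.map_zero_eq_one]
    simp_rw [this]
    simp

lemma pick_surj {θ : AddChar F ℂ} (hθ : θ ≠ 1) (lam : Module.Dual F (Nil n F)) :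
    ∃ ψ : {χ : Uni n F → ℂ // IsIrrChar χ}, orbSetoid n F lam (pick hθ ψ) := by
  by_contra hn
  push Not at hn
  have h1 : orbitSum θ lam = 0 := by
    apply class_eq_zero _ (orbitSum_class θ lam)
    intro ψ hψ
    have h2 := B_orbit hθ lam ⟨ψ, hψ⟩
    rw [if_neg (hn _)] at h2
    exact h2
  obtain ⟨m, hm, h3⟩ := orbitSum_one θ lam
  rw [h1] at h3
  have : (m : ℂ) = 0 := h3.symm
  exact absurd (by exact_mod_cast this) hm.ne'

lemma card_chars {θ : AddChar F ℂ} (hθ : θ ≠ 1) :
    Nat.card (Quotient (charSetoid (n := n) hθ)) = Nat.card (Quotient (orbSetoid n F)) := by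
  refine Nat.card_congr (Equiv.ofBijective
    (Quotient.map' (s₁ := charSetoid hθ) (s₂ := orbSetoid n F) (pick hθ) (fun _ _ h => h)) ⟨?_, ?_⟩)
  · intro a b
    induction a using Quotient.inductionOn'
    induction b using Quotient.inductionOn'
    intro h
    rw [Quotient.map'_mk'', Quotient.map'_mk''] at h
    have h' : orbSetoid n F (pick hθ _) (pick hθ _) := Quotient.exact' h
    exact Quotient.sound' h'
  · intro q
    induction q using Quotient.inductionOn' with
    | h lam =>
      obtain ⟨ψ, hψ⟩ := pick_surj hθ lam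
      refine ⟨Quotient.mk'' ψ, ?_⟩
      rw [Quotient.map'_mk'']
      exact Quotient.sound' ((orbSetoid n F).symm hψ)

/-- Brauer's permutation lemma for the two-sided orbits -/
lemma card_orbits {θ : AddChar F ℂ} (hθ : θ ≠ 1) :
    Nat.card (Quotient (orbSetoid n F)) = Nat.card (Quotient (classSetoid n F)) := by
  apply le_antisymm
  · let T : (Module.Dual F (Nil n F) → ℂ) →ₗ[ℂ] (Uni n F → ℂ) :=
      { toFun := fun f g => ∑ μ : Module.Dual F (Nil n F), f μ * θ (μ (sub1 g))
        map_add' := by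
          intro a b
          funext g
          simp only [Pi.add_apply, add_mul, Finset.sum_add_distrib]
        map_smul' := by
          intro c a
          funext g
          simp only [Pi.smul_apply, smul_eq_mul, RingHom.id_apply, mul_assoc, Finset.mul_sum] }
    apply card_quot_le _ _ T
    · intro f f' e
      funext μ
      rw [← hat_comb hθ f μ, ← hat_comb hθ f' μ]
      exact congrArg (fun φ => hat θ φ μ) e
    · intro f hf g h e
      obtain ⟨u, v, e⟩ := class_iff.mp e
      show ∑ μ : Module.Dual F (Nil n F), f μ * θ (μ (sub1 g))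
        = ∑ μ : Module.Dual F (Nil n F), f μ * θ (μ (sub1 h))
      rw [e, ← Equiv.sum_comp (dualPerm u v)
        (fun μ : Module.Dual F (Nil n F) => f μ * θ (μ (sub1 g)))]
      refine Finset.sum_congr rfl fun μ _ => ?_
      rw [← hf μ (dualPerm u v μ) ⟨u, v, rfl⟩]
      rfl
  · let T : (Uni n F → ℂ) →ₗ[ℂ] (Module.Dual F (Nil n F) → ℂ) :=
      { toFun := fun f μ => hat θ f μ
        map_add' := by
          intro a b
          funext μ
          simp only [hat, Pi.add_apply, add_mul, Finset.sum_add_distrib, mul_add]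
        map_smul' := by
          intro c a
          funext μ
          simp only [hat, Pi.smul_apply, smul_eq_mul, RingHom.id_apply, mul_assoc, Finset.mul_sum]
          refine Finset.sum_congr rfl fun g _ => ?_
          ring }
    apply card_quot_le _ _ T
    · intro f f' e
      funext g
      rw [expand_hat hθ f g, expand_hat hθ f' g]
      refine Finset.sum_congr rfl fun μ _ => ?_
      have : hat θ f μ = hat θ f' μ := congrFun e μ
      rw [this]
    · intro f hf μ ν e
      obtain ⟨u, v, rfl⟩ := e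
      show hat θ f μ = hat θ f (μ ∘ₗ twist u v)
      unfold hat
      congr 1
      -- the bijection g ↦ sub1⁻¹ (twist u v (sub1 g))
      let e1 : Nil n F ≃ Nil n F :=
        { toFun := twist u v
          invFun := twist u⁻¹ v⁻¹
          left_inv := fun y => by
            rw [twist_twist, inv_mul_cancel, mul_inv_cancel, twist_one]
          right_inv := fun y => by
            rw [twist_twist, mul_inv_cancel, inv_mul_cancel, twist_one] }
      let e2 : Uni n F ≃ Uni n F := (sub1Equiv.trans e1).trans sub1Equiv.symm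
      have he2 : ∀ g, sub1 (e2 g) = twist u v (sub1 g) := fun g =>
        (sub1Equiv (n := n) (F := F)).apply_symm_apply _
      rw [← Equiv.sum_comp e2]
      refine Finset.sum_congr rfl fun g _ => ?_
      have h1 : f (e2 g) = f g := (hf g (e2 g) (class_iff.mpr ⟨u, v, he2 g⟩)).symm
      rw [h1, he2]
      rfl

/-- André's supercharacter theory -/
def andre {θ : AddChar F ℂ} (hθ : θ ≠ 1) : SuperTheory (Uni n F) where
  chars := charSetoid hθ
  classes := classSetoid n F
  card_eq := (card_chars hθ).trans (card_orbits hθ)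
  one_class := by
    rintro g ⟨u, v, e⟩
    rw [mat_one, sub_self, mul_zero, zero_mul] at e
    exact mat_inj (by rw [sub_eq_zero.mp e, mat_one])
  const := by
    intro χ g h e
    rw [superchar_pick hθ]
    exact orbitSum_andre θ _ e

theorem isAndre {θ : AddChar F ℂ} (hθ : θ ≠ 1) : IsAndre θ (andre (n := n) hθ) := by
  refine ⟨fun _ _ => Iff.rfl, fun χ => ⟨pick hθ χ, superchar_pick hθ χ⟩, fun lam => ?_⟩
  obtain ⟨ψ, hψ⟩ := pick_surj hθ lam
  refine ⟨ψ, ?_⟩
  rw [orbitSum_congr θ hψ]
  exact superchar_pick hθ ψ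

end Pool.Agent.Run7.h942.SC
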