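import Pool.Agent.Helper884.IC.Compl

/-!
# Supercharacter theories and the group of unitriangular matrices: definitions
-/

noncomputable section

namespace Pool.Agent.Run7.h942.SC

open Pool.Agent.Helper884.IC

/-- The supercharacter `σ_X = ∑_{ψ ∈ X} ψ(1) ψ`, where `X` is the block of the irreducible
character `χ` for the equivalence relation `r` on the set of the irreducible complex characters
of `G`. -/
def superchar {G : Type} [Group G] (r : Setoid {χ : G → ℂ // IsIrrChar χ})
    (χ : {χ : G → ℂ // IsIrrChar χ}) (g : G) : ℂ :=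
  ∑ᶠ ψ ∈ {ψ : {χ : G → ℂ // IsIrrChar χ} | r χ ψ}, ψ.1 1 * ψ.1 g

/-- A supercharacter theory of the finite group `G` (Diaconis and Isaacs): a partition of
`Irr(G)` and a partition of `G` (both given by equivalence relations) with the same number of
blocks, such that `{1}` is a block of the second one, and such that the supercharacters are
constant on the blocks of the second one. -/
structure SuperTheory (G : Type) [Group G] where
  /-- the partition of `Irr(G)` -/
  chars : Setoid {χ : G → ℂ // IsIrrChar χ}
  /-- the partition of `G` -/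
  classes : Setoid G
  card_eq : Nat.card (Quotient chars) = Nat.card (Quotient classes)
  one_class : ∀ g : G, classes 1 g → g = 1
  const : ∀ (χ : {χ : G → ℂ // IsIrrChar χ}) (g h : G), classes g h →
    superchar chars χ g = superchar chars χ h

/-- The theory `T` contains the irreducible character `χ`: `{χ}` is a block. -/
def SuperTheory.Contains {G : Type} [Group G] (T : SuperTheory G)
    (χ : {χ : G → ℂ // IsIrrChar χ}) : Prop :=
  ∀ ψ, T.chars χ ψ → ψ = χ

/-- `T` is coarser than (or equal to) `T'`: both partitions of `T` are coarser than (or equal to)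
those of `T'`. -/
def SuperTheory.Coarser {G : Type} [Group G] (T T' : SuperTheory G) : Prop :=
  T'.classes ≤ T.classes ∧ T'.chars ≤ T.chars

section U

variable (n : ℕ) (F : Type) [Field F]

/-- a matrix is upper unitriangular: the entries on and below the diagonal are those of the
identity matrix -/
def IsUni {n : ℕ} {F : Type} [Field F] (M : Matrix (Fin n) (Fin n) F) : Prop :=
  ∀ i j : Fin n, j ≤ i → M i j = (1 : Matrix (Fin n) (Fin n) F) i j

variable {n F}

lemma IsUni.mul {M N : Matrix (Fin n) (Fin n) F} (hM : IsUni M) (hN : IsUni N) :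
    IsUni (M * N) := by
  intro i j hji
  rw [Matrix.mul_apply, Matrix.one_apply]
  by_cases hij : i = j
  · subst hij
    rw [if_pos rfl, Finset.sum_eq_single i]
    · rw [hM i i le_rfl, hN i i le_rfl]; simp
    · intro k _ hk
      rcases lt_or_gt_of_ne hk with h | h
      · rw [hM i k h.le, Matrix.one_apply_ne (Ne.symm hk), zero_mul]
      · rw [hN k i h.le, Matrix.one_apply_ne hk, mul_zero]
    · intro h; exact absurd (Finset.mem_univ _) h
  · rw [if_neg hij]
    have hlt : j < i := lt_of_le_of_ne hji (Ne.symm hij)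
    refine Finset.sum_eq_zero fun k _ => ?_
    rcases lt_or_ge k i with h | h
    · rw [hM i k h.le, Matrix.one_apply_ne (Ne.symm h.ne), zero_mul]
    · rw [hN k j (hji.trans h), Matrix.one_apply_ne (ne_of_gt (lt_of_lt_of_le hlt h)), mul_zero]

lemma IsUni.one : IsUni (1 : Matrix (Fin n) (Fin n) F) := fun _ _ _ => rfl

lemma IsUni.det {M : Matrix (Fin n) (Fin n) F} (hM : IsUni M) : M.det = 1 := by
  rw [Matrix.det_of_upperTriangular]
  · refine Finset.prod_eq_one fun i _ => ?_
    rw [hM i i le_rfl, Matrix.one_apply_eq]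
  · intro i j hij
    have hij' : j < i := hij
    rw [hM i j hij'.le, Matrix.one_apply_ne (ne_of_gt hij')]

lemma IsUni.inv {M : Matrix (Fin n) (Fin n) F} (hM : IsUni M) : IsUni M⁻¹ := by
  have hdet : IsUnit M.det := by rw [hM.det]; exact isUnit_one
  haveI : Invertible M := Matrix.invertibleOfIsUnitDet M hdet
  have hb : Matrix.BlockTriangular M (id : Fin n → Fin n) := by
    intro i j hij
    have hij' : j < i := hij
    rw [hM i j hij'.le, Matrix.one_apply_ne (ne_of_gt hij')]
  have hbi := Matrix.blockTriangular_inv_of_blockTriangular hb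
  intro i j hji
  rcases eq_or_lt_of_le hji with h | h
  · subst h
    have h1 : (M * M⁻¹) j j = 1 := by
      rw [Matrix.mul_nonsing_inv _ hdet, Matrix.one_apply_eq]
    rw [Matrix.mul_apply, Finset.sum_eq_single j] at h1
    · rw [hM j j le_rfl, Matrix.one_apply_eq, one_mul] at h1
      rw [h1, Matrix.one_apply_eq]
    · intro k _ hk
      rcases lt_or_gt_of_ne hk with h | h
      · rw [hM j k h.le, Matrix.one_apply_ne (Ne.symm hk), zero_mul]
      · rw [hbi h, mul_zero]
    · intro h; exact absurd (Finset.mem_univ _) h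
  · rw [hbi h, Matrix.one_apply_ne (ne_of_gt h)]

variable (n F)

/-- The group `U_n(F)` of the upper unitriangular `n × n` matrices, a subgroup of `GL_n(F)`. -/
def Uni : Subgroup (Matrix.GeneralLinearGroup (Fin n) F) where
  carrier := {g | IsUni (g : Matrix (Fin n) (Fin n) F)}
  mul_mem' := by
    intro a b ha hb
    exact IsUni.mul ha hb
  one_mem' := IsUni.one
  inv_mem' := by
    intro a ha
    have h := IsUni.inv (M := (a : Matrix (Fin n) (Fin n) F)) ha
    show IsUni ((a⁻¹ : Matrix.GeneralLinearGroup (Fin n) F) : Matrix (Fin n) (Fin n) F)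
    rw [Matrix.coe_units_inv]
    exact h

/-- The space `𝔫` of the strictly upper triangular `n × n` matrices. -/
def Nil : Submodule F (Matrix (Fin n) (Fin n) F) where
  carrier := {x | ∀ i j : Fin n, j ≤ i → x i j = 0}
  add_mem' := by
    intro a b ha hb i j hij
    rw [Matrix.add_apply, ha i j hij, hb i j hij, add_zero]
  zero_mem' := fun _ _ _ => rfl
  smul_mem' := by
    intro c x hx i j hij
    rw [Matrix.smul_apply, hx i j hij, smul_zero]

variable {n F}

/-- the matrix of an element of `U_n(F)` -/
def mat (g : Uni n F) : Matrix (Fin n) (Fin n) F :=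
  ((g : Matrix.GeneralLinearGroup (Fin n) F) : Matrix (Fin n) (Fin n) F)

lemma mat_uni (g : Uni n F) : IsUni (mat g) := g.2

lemma mul_nil_mul_mem {M N x : Matrix (Fin n) (Fin n) F} (hM : IsUni M) (hN : IsUni N)
    (hx : x ∈ Nil n F) : M * x * N ∈ Nil n F := by
  intro i j hji
  rw [Matrix.mul_apply]
  refine Finset.sum_eq_zero fun k _ => ?_
  rcases lt_or_ge j k with h | h
  · rw [hN k j h.le, Matrix.one_apply_ne (ne_of_gt h), mul_zero]
  · rw [Matrix.mul_apply]
    rw [Finset.sum_eq_zero, zero_mul]
    intro l _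
    rcases lt_or_ge l i with h' | h'
    · rw [hM i l h'.le, Matrix.one_apply_ne (ne_of_gt h'), zero_mul]
    · rw [hx l k ((h.trans hji).trans h'), mul_zero]

/-- `y ↦ u y v`, an endomorphism of `𝔫` -/
def twist (u v : Uni n F) : Nil n F →ₗ[F] Nil n F where
  toFun y := ⟨mat u * y.1 * mat v, mul_nil_mul_mem (mat_uni u) (mat_uni v) y.2⟩
  map_add' x y := by
    apply Subtype.ext
    simp only [Submodule.coe_add, mul_add, add_mul]
  map_smul' c x := by
    apply Subtype.ext
    simp only [Submodule.coe_smul, Matrix.mul_smul, Matrix.smul_mul, RingHom.id_apply]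

/-- `g ↦ g - 1`, a map from `U_n(F)` to `𝔫` -/
def sub1 (g : Uni n F) : Nil n F :=
  ⟨mat g - 1, fun i j hij => by rw [Matrix.sub_apply, mat_uni g i j hij, sub_self]⟩

/-- The superclasses of André's theory: `g` and `h` are equivalent if `h - 1 = u (g - 1) v` for
some `u, v` in `U_n(F)`. -/
def AndreClasses (g h : Uni n F) : Prop :=
  ∃ u v : Uni n F, mat h - 1 = mat u * (mat g - 1) * mat v

/-- The two-sided orbit `U λ U` of the functional `λ` on `𝔫`, where `(u μ v)(y) = μ(u y v)`. -/
def dualOrbit (lam : Module.Dual F (Nil n F)) : Set (Module.Dual F (Nil n F)) :=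
  {μ | ∃ u v : Uni n F, μ = lam ∘ₗ twist u v}

/-- The function `g ↦ ∑_{μ ∈ U λ U} θ(μ(g - 1))` on `U_n(F)`. -/
def orbitSum (θ : AddChar F ℂ) (lam : Module.Dual F (Nil n F)) (g : Uni n F) : ℂ :=
  ∑ᶠ μ ∈ dualOrbit lam, θ (μ (sub1 g))

/-- `T` is André's supercharacter theory of `U_n(F)`: the superclasses are those of `AndreClasses`,
and the supercharacters are the functions `orbitSum θ λ`, where `λ` runs over the dual space
of `𝔫`. -/
def IsAndre (θ : AddChar F ℂ) (T : SuperTheory (Uni n F)) : Prop :=
  (∀ g h, T.classes g h ↔ AndreClasses g h) ∧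
  (∀ χ, ∃ lam, superchar T.chars χ = orbitSum θ lam) ∧
  (∀ lam, ∃ χ, superchar T.chars χ = orbitSum θ lam)

/-- the functional `y ↦ a y_ij` on `𝔫` -/
def box (i j : Fin n) (a : F) : Module.Dual F (Nil n F) where
  toFun y := a * y.1 i j
  map_add' x y := by simp only [Submodule.coe_add, Matrix.add_apply, mul_add]
  map_smul' c x := by
    simp only [Submodule.coe_smul, Matrix.smul_apply, smul_eq_mul, RingHom.id_apply]; ring

/-- `T` contains all single-box supercharacters as irreducible characters: for all `i < j` and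
all `a ≠ 0` a positive multiple of the orbit sum of the functional `y ↦ a y_ij` is an irreducible
character `χ` such that `{χ}` is a block of `T`. -/
def ContainsBoxes (θ : AddChar F ℂ) (T : SuperTheory (Uni n F)) : Prop :=
  ∀ i j : Fin n, i < j → ∀ a : F, a ≠ 0 → ∃ χ : {χ : Uni n F → ℂ // IsIrrChar χ},
    (∃ c : ℝ, 0 < c ∧ ∀ g, χ.1 g = c * orbitSum θ (box i j a) g) ∧ T.Contains χ

end U

end Pool.Agent.Run7.h942.SC
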