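import Pool.Agent.Run7.h942.SC.Defs

/-!
# Fourier analysis on the group of unitriangular matrices
-/

set_option linter.unusedSectionVars false
set_option linter.style.haveILetI false

open scoped BigOperators Classical

noncomputable section

namespace Pool.Agent.Run7.h942.SC

open Pool.Agent.Helper884.IC

variable {n : ℕ} {F : Type} [Field F]

/-! ### algebra -/

lemma mat_mul (g h : Uni n F) : mat (g * h) = mat g * mat h := rfl

lemma mat_one : mat (1 : Uni n F) = 1 := rfl

lemma mat_inj {g h : Uni n F} (e : mat g = mat h) : g = h := by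
  apply Subtype.ext
  apply Units.ext
  exact e

lemma mat_mul_inv (g : Uni n F) : mat g * mat g⁻¹ = 1 := by
  rw [← mat_mul, mul_inv_cancel, mat_one]

lemma mat_inv_mul (g : Uni n F) : mat g⁻¹ * mat g = 1 := by
  rw [← mat_mul, inv_mul_cancel, mat_one]

/-- construct an element of the group from its matrix -/
def mkU (M : Matrix (Fin n) (Fin n) F) (h : IsUni M) : Uni n F :=
  ⟨Matrix.GeneralLinearGroup.mkOfDetNeZero M (by rw [h.det]; exact one_ne_zero), h⟩

lemma mat_mkU (M : Matrix (Fin n) (Fin n) F) (h : IsUni M) : mat (mkU M h) = M := rfl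

lemma twist_apply (u v : Uni n F) (y : Nil n F) :
    (twist u v y).1 = mat u * y.1 * mat v := rfl

lemma twist_twist (u v u' v' : Uni n F) (y : Nil n F) :
    twist u v (twist u' v' y) = twist (u * u') (v' * v) y := by
  apply Subtype.ext
  simp only [twist_apply, mat_mul, mul_assoc]

lemma twist_one (y : Nil n F) : twist (1 : Uni n F) 1 y = y := by
  apply Subtype.ext
  simp only [twist_apply, mat_one, one_mul, mul_one]

lemma twist_comp (u v u' v' : Uni n F) :
    twist u v ∘ₗ twist u' v' = twist (u * u') (v' * v) :=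
  LinearMap.ext fun y => twist_twist u v u' v' y

lemma twist_one_one : twist (1 : Uni n F) 1 = LinearMap.id :=
  LinearMap.ext fun y => twist_one y

lemma sub1_val (g : Uni n F) : (sub1 g).1 = mat g - 1 := rfl

lemma sub1_one : sub1 (1 : Uni n F) = 0 := by
  apply Subtype.ext
  rw [sub1_val, mat_one, sub_self]; rfl

lemma sub1_inj {g h : Uni n F} (e : sub1 g = sub1 h) : g = h := by
  have := congrArg Subtype.val e
  rw [sub1_val, sub1_val] at this
  exact mat_inj (sub_left_inj.mp this)

/-- the bijection `g ↦ g - 1` -/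
def sub1Equiv : Uni n F ≃ Nil n F where
  toFun := sub1
  invFun y := mkU (y.1 + 1) (fun i j hij => by rw [Matrix.add_apply, y.2 i j hij, zero_add])
  left_inv g := by
    apply mat_inj
    rw [mat_mkU, sub1_val, sub_add_cancel]
  right_inv y := by
    apply Subtype.ext
    rw [sub1_val, mat_mkU, add_sub_cancel_right]

lemma sub1_mul_inv (g h : Uni n F) : sub1 (g * h⁻¹) = twist 1 h⁻¹ (sub1 g - sub1 h) := by
  apply Subtype.ext
  rw [sub1_val, twist_apply, mat_mul, mat_one, one_mul, Submodule.coe_sub, sub1_val, sub1_val,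
    sub_sub_sub_cancel_right, sub_mul, mat_mul_inv]

lemma sub1_conj (g y : Uni n F) : sub1 (y * g * y⁻¹) = twist y y⁻¹ (sub1 g) := by
  apply Subtype.ext
  rw [sub1_val, twist_apply, mat_mul, mat_mul, sub1_val, mul_sub, sub_mul, mul_one, mat_mul_inv]

/-! ### the two-sided orbits on the dual space -/

variable (n F) in
/-- the equivalence relation of the two-sided orbits on the dual space -/
def orbSetoid : Setoid (Module.Dual F (Nil n F)) where
  r μ ν := ∃ u v : Uni n F, ν = μ ∘ₗ twist u v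
  iseqv :=
    { refl := fun μ => ⟨1, 1, by rw [twist_one_one, LinearMap.comp_id]⟩
      symm := by
        rintro μ ν ⟨u, v, rfl⟩
        refine ⟨u⁻¹, v⁻¹, ?_⟩
        rw [LinearMap.comp_assoc, twist_comp, mul_inv_cancel, inv_mul_cancel, twist_one_one,
          LinearMap.comp_id]
      trans := by
        rintro μ ν ρ ⟨u, v, rfl⟩ ⟨u', v', rfl⟩
        exact ⟨u * u', v' * v, by rw [LinearMap.comp_assoc, twist_comp]⟩ }

lemma orb_iff {μ ν : Module.Dual F (Nil n F)} :
    orbSetoid n F μ ν ↔ ∃ u v : Uni n F, ν = μ ∘ₗ twist u v := Iff.rfl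

lemma mem_dualOrbit {μ ν : Module.Dual F (Nil n F)} : ν ∈ dualOrbit μ ↔ orbSetoid n F μ ν :=
  Iff.rfl

/-- a bijection of the dual space -/
def dualPerm (u v : Uni n F) : Module.Dual F (Nil n F) ≃ Module.Dual F (Nil n F) where
  toFun μ := μ ∘ₗ twist u v
  invFun μ := μ ∘ₗ twist u⁻¹ v⁻¹
  left_inv μ := by
    show (μ ∘ₗ twist u v) ∘ₗ twist u⁻¹ v⁻¹ = μ
    rw [LinearMap.comp_assoc, twist_comp, mul_inv_cancel, inv_mul_cancel, twist_one_one,
      LinearMap.comp_id]
  right_inv μ := by
    show (μ ∘ₗ twist u⁻¹ v⁻¹) ∘ₗ twist u v = μ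
    rw [LinearMap.comp_assoc, twist_comp, inv_mul_cancel, mul_inv_cancel, twist_one_one,
      LinearMap.comp_id]

lemma dualPerm_apply (u v : Uni n F) (μ : Module.Dual F (Nil n F)) :
    dualPerm u v μ = μ ∘ₗ twist u v := rfl

lemma orb_dualPerm (u v : Uni n F) (lam μ : Module.Dual F (Nil n F)) :
    orbSetoid n F lam (dualPerm u v μ) ↔ orbSetoid n F lam μ := by
  have h : orbSetoid n F μ (dualPerm u v μ) := ⟨u, v, rfl⟩
  exact ⟨fun h' => (orbSetoid n F).trans h' ((orbSetoid n F).symm h),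
    fun h' => (orbSetoid n F).trans h' h⟩

/-! ### finiteness -/

variable [Finite F]

instance : Fintype F := Fintype.ofFinite F
instance : Finite (Nil n F) := Subtype.finite
instance : Fintype (Nil n F) := Fintype.ofFinite _
instance : Finite (Uni n F) := Finite.of_equiv _ (sub1Equiv (n := n) (F := F)).symm
instance : Fintype (Uni n F) := Fintype.ofFinite _
instance : Finite (Module.Dual F (Nil n F)) :=
  Finite.of_injective (fun μ : Module.Dual F (Nil n F) => (μ : Nil n F → F)) DFunLike.coe_injective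
instance : Fintype (Module.Dual F (Nil n F)) := Fintype.ofFinite _

/-- a nontrivial additive character composed with a nonzero functional takes a value `≠ 1` -/
lemma exists_ne_one {θ : AddChar F ℂ} (hθ : θ ≠ 1) {a : F} (ha : a ≠ 0) :
    ∃ c : F, θ (c * a) ≠ 1 := by
  obtain ⟨b, hb⟩ := AddChar.ne_one_iff.mp hθ
  exact ⟨b / a, by rwa [div_mul_cancel₀ _ ha]⟩

lemma sum_nil {θ : AddChar F ℂ} (hθ : θ ≠ 1) (μ : Module.Dual F (Nil n F)) :
    ∑ y : Nil n F, θ (μ y) = if μ = 0 then (Fintype.card (Nil n F) : ℂ) else 0 := by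
  split_ifs with h
  · subst h
    simp
  · have : ∃ y, μ y ≠ 0 := by
      by_contra hn
      push Not at hn
      exact h (LinearMap.ext fun y => by rw [hn y]; rfl)
    obtain ⟨y, hy⟩ := this
    obtain ⟨c, hc⟩ := exists_ne_one hθ hy
    have h1 : ∑ z : Nil n F, θ (μ z) = θ (c * μ y) * ∑ z : Nil n F, θ (μ z) := by
      rw [Finset.mul_sum]
      rw [← Equiv.sum_comp (Equiv.addRight (c • y)) (fun z => θ (μ z))]
      refine Finset.sum_congr rfl fun z _ => ?_
      rw [Equiv.coe_addRight, map_add, map_smul, smul_eq_mul, AddChar.map_add_eq_mul, mul_comm]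
    have h2 : (1 - θ (c * μ y)) * ∑ z : Nil n F, θ (μ z) = 0 := by
      rw [sub_mul, one_mul, ← h1, sub_self]
    rcases mul_eq_zero.mp h2 with h3 | h3
    · exact absurd (sub_eq_zero.mp h3).symm hc
    · exact h3

lemma sum_dual {θ : AddChar F ℂ} (hθ : θ ≠ 1) (y : Nil n F) :
    ∑ μ : Module.Dual F (Nil n F), θ (μ y)
      = if y = 0 then (Fintype.card (Module.Dual F (Nil n F)) : ℂ) else 0 := by
  split_ifs with h
  · subst h
    simp
  · have : ∃ μ : Module.Dual F (Nil n F), μ y ≠ 0 := by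
      by_contra hn
      push Not at hn
      exact h ((Module.forall_dual_apply_eq_zero_iff F y).mp hn)
    obtain ⟨μ, hμ⟩ := this
    obtain ⟨c, hc⟩ := exists_ne_one hθ hμ
    have h1 : ∑ ν : Module.Dual F (Nil n F), θ (ν y)
        = θ (c * μ y) * ∑ ν : Module.Dual F (Nil n F), θ (ν y) := by
      rw [Finset.mul_sum]
      rw [← Equiv.sum_comp (Equiv.addRight (c • μ)) (fun ν : Module.Dual F (Nil n F) => θ (ν y))]
      refine Finset.sum_congr rfl fun z _ => ?_
      rw [Equiv.coe_addRight, LinearMap.add_apply, LinearMap.smul_apply, smul_eq_mul,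
        AddChar.map_add_eq_mul, mul_comm]
    have h2 : (1 - θ (c * μ y)) * ∑ ν : Module.Dual F (Nil n F), θ (ν y) = 0 := by
      rw [sub_mul, one_mul, ← h1, sub_self]
    rcases mul_eq_zero.mp h2 with h3 | h3
    · exact absurd (sub_eq_zero.mp h3).symm hc
    · exact h3

lemma card_dual {θ : AddChar F ℂ} (hθ : θ ≠ 1) :
    (Fintype.card (Module.Dual F (Nil n F)) : ℂ) = Fintype.card (Nil n F) := by
  have h1 : ∑ μ : Module.Dual F (Nil n F), ∑ y : Nil n F, θ (μ y)
      = (Fintype.card (Nil n F) : ℂ) := by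
    simp_rw [sum_nil hθ]
    simp
  have h2 : ∑ μ : Module.Dual F (Nil n F), ∑ y : Nil n F, θ (μ y)
      = (Fintype.card (Module.Dual F (Nil n F)) : ℂ) := by
    rw [Finset.sum_comm]
    simp_rw [sum_dual hθ]
    simp
  rw [← h2, h1]

lemma card_grp : Fintype.card (Uni n F) = Fintype.card (Nil n F) :=
  Fintype.card_congr sub1Equiv

lemma N_ne : (Fintype.card (Nil n F) : ℂ) ≠ 0 := by
  have : 0 < Fintype.card (Nil n F) := Fintype.card_pos
  exact_mod_cast this.ne'

lemma sum_grp {θ : AddChar F ℂ} (hθ : θ ≠ 1) (μ : Module.Dual F (Nil n F)) :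
    ∑ g : Uni n F, θ (μ (sub1 g)) = if μ = 0 then (Fintype.card (Nil n F) : ℂ) else 0 := by
  rw [← sum_nil hθ μ]
  exact Equiv.sum_comp (sub1Equiv (n := n) (F := F)) (fun y => θ (μ y))

/-- Fourier coefficients -/
def hat (θ : AddChar F ℂ) (φ : Uni n F → ℂ) (μ : Module.Dual F (Nil n F)) : ℂ :=
  (Fintype.card (Nil n F) : ℂ)⁻¹ * ∑ g : Uni n F, φ g * θ (-μ (sub1 g))

lemma expand_hat {θ : AddChar F ℂ} (hθ : θ ≠ 1) (φ : Uni n F → ℂ) (g : Uni n F) :
    φ g = ∑ μ : Module.Dual F (Nil n F), hat θ φ μ * θ (μ (sub1 g)) := by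
  unfold hat
  simp only [mul_assoc, Finset.sum_mul, Finset.mul_sum]
  rw [Finset.sum_comm]
  have h1 : ∀ h : Uni n F, ∑ μ : Module.Dual F (Nil n F),
      (Fintype.card (Nil n F) : ℂ)⁻¹ * (φ h * (θ (-μ (sub1 h)) * θ (μ (sub1 g))))
      = if g = h then φ h else 0 := by
    intro h
    have h2 : ∀ μ : Module.Dual F (Nil n F), θ (-μ (sub1 h)) * θ (μ (sub1 g))
        = θ (μ (sub1 g - sub1 h)) := by
      intro μ
      rw [← AddChar.map_add_eq_mul, map_sub]
      congr 1
      ring
    simp_rw [h2]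
    rw [← Finset.mul_sum, ← Finset.mul_sum, sum_dual hθ, card_dual hθ]
    by_cases hgh : g = h
    · subst hgh
      rw [if_pos rfl, if_pos (sub_self _)]
      field_simp [N_ne (n := n) (F := F)]
    · rw [if_neg hgh, if_neg (fun e => hgh (sub1_inj (sub_eq_zero.mp e)))]
      simp
  simp_rw [h1]
  simp

lemma hat_comb {θ : AddChar F ℂ} (hθ : θ ≠ 1) (a : Module.Dual F (Nil n F) → ℂ)
    (μ : Module.Dual F (Nil n F)) :
    hat θ (fun g => ∑ ν : Module.Dual F (Nil n F), a ν * θ (ν (sub1 g))) μ = a μ := by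
  unfold hat
  simp only [Finset.sum_mul, mul_assoc]
  rw [Finset.sum_comm]
  have h1 : ∀ ν : Module.Dual F (Nil n F), ∑ g : Uni n F,
      a ν * (θ (ν (sub1 g)) * θ (-μ (sub1 g)))
      = if ν = μ then a ν * (Fintype.card (Nil n F) : ℂ) else 0 := by
    intro ν
    have h2 : ∀ g : Uni n F, θ (ν (sub1 g)) * θ (-μ (sub1 g)) = θ ((ν - μ) (sub1 g)) := by
      intro g
      rw [← AddChar.map_add_eq_mul, LinearMap.sub_apply]
      congr 1
      ring
    simp_rw [h2]
    rw [← Finset.mul_sum, sum_grp hθ]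
    simp only [sub_eq_zero]
    split_ifs <;> simp
  simp_rw [h1]
  rw [Finset.sum_ite_eq' Finset.univ μ]
  simp only [Finset.mem_univ, if_true]
  field_simp [N_ne (n := n) (F := F)]

/-- the orbit sum as a finite sum -/
lemma orbitSum_eq (θ : AddChar F ℂ) (lam : Module.Dual F (Nil n F)) (g : Uni n F) :
    orbitSum θ lam g
      = ∑ μ : Module.Dual F (Nil n F), if orbSetoid n F lam μ then θ (μ (sub1 g)) else 0 := by
  unfold orbitSum
  rw [← Finset.sum_filter, finsum_mem_eq_finite_toFinset_sum _ (Set.toFinite _)]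
  refine Finset.sum_congr ?_ fun _ _ => rfl
  ext μ
  simp [mem_dualOrbit]

lemma orbitSum_congr (θ : AddChar F ℂ) {lam lam' : Module.Dual F (Nil n F)}
    (h : orbSetoid n F lam lam') : orbitSum θ lam = orbitSum θ lam' := by
  funext g
  rw [orbitSum_eq, orbitSum_eq]
  refine Finset.sum_congr rfl fun μ _ => ?_
  have : orbSetoid n F lam μ ↔ orbSetoid n F lam' μ :=
    ⟨fun h' => (orbSetoid n F).trans ((orbSetoid n F).symm h) h',
      fun h' => (orbSetoid n F).trans h h'⟩
  simp only [this]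

/-- invariance of the orbit sums -/
lemma orbit_twist (θ : AddChar F ℂ) (lam : Module.Dual F (Nil n F)) (u v : Uni n F)
    (y : Nil n F) :
    ∑ μ : Module.Dual F (Nil n F), (if orbSetoid n F lam μ then θ (μ (twist u v y)) else 0)
      = ∑ μ : Module.Dual F (Nil n F), if orbSetoid n F lam μ then θ (μ y) else 0 := by
  rw [← Equiv.sum_comp (dualPerm u v)
    (fun μ : Module.Dual F (Nil n F) => if orbSetoid n F lam μ then θ (μ y) else 0)]
  refine Finset.sum_congr rfl fun μ _ => ?_
  simp only [orb_dualPerm]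
  rfl

lemma orbitSum_class (θ : AddChar F ℂ) (lam : Module.Dual F (Nil n F)) :
    IsClass (orbitSum θ lam) := by
  intro g y
  rw [orbitSum_eq, orbitSum_eq, sub1_conj, orbit_twist]

lemma orbitSum_andre (θ : AddChar F ℂ) (lam : Module.Dual F (Nil n F)) {g h : Uni n F}
    (e : AndreClasses g h) : orbitSum θ lam g = orbitSum θ lam h := by
  obtain ⟨u, v, e⟩ := e
  rw [orbitSum_eq, orbitSum_eq]
  have : sub1 h = twist u v (sub1 g) := Subtype.ext e
  rw [this, orbit_twist]

/-- the convolution with an orbit sum is a Fourier projection -/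
lemma conv_orbit (θ : AddChar F ℂ) (lam : Module.Dual F (Nil n F)) (φ : Uni n F → ℂ)
    (g : Uni n F) :
    ∑ h : Uni n F, orbitSum θ lam (g * h⁻¹) * φ h
      = (Fintype.card (Nil n F) : ℂ) * ∑ μ : Module.Dual F (Nil n F),
        if orbSetoid n F lam μ then hat θ φ μ * θ (μ (sub1 g)) else 0 := by
  have h1 : ∀ h : Uni n F, orbitSum θ lam (g * h⁻¹)
      = ∑ μ : Module.Dual F (Nil n F),
        if orbSetoid n F lam μ then θ (μ (sub1 g)) * θ (-μ (sub1 h)) else 0 := by
    intro h
    rw [orbitSum_eq, sub1_mul_inv, orbit_twist]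
    refine Finset.sum_congr rfl fun μ _ => ?_
    rw [map_sub, sub_eq_add_neg, AddChar.map_add_eq_mul]
  simp_rw [h1, Finset.sum_mul]
  rw [Finset.sum_comm, Finset.mul_sum]
  refine Finset.sum_congr rfl fun μ _ => ?_
  by_cases hμ : orbSetoid n F lam μ
  · simp only [hμ, if_true]
    unfold hat
    rw [← mul_assoc, ← mul_assoc, mul_inv_cancel₀ N_ne, one_mul, Finset.sum_mul]
    refine Finset.sum_congr rfl fun h _ => ?_
    ring
  · simp [hμ]

end Pool.Agent.Run7.h942.SC
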