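import Pool.Agent.Run7.h942.SC.Four

/-!
# Monomial representatives of the superclasses, and the values of the single-box characters
-/

set_option linter.unusedSectionVars false
set_option linter.style.haveILetI false

open scoped BigOperators Classical

noncomputable section

namespace Pool.Agent.Run7.h942.SC

variable {n : ℕ} {F : Type} [Field F]

/-! ### elementary column and row operations -/

/-- the identity matrix with the entries `a l` added in the column `c`, above the diagonal -/
def colM (c : Fin n) (a : Fin n → F) : Matrix (Fin n) (Fin n) F :=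
  fun i j => (1 : Matrix (Fin n) (Fin n) F) i j + if j = c ∧ i < c then a i else 0

lemma colM_uni (c : Fin n) (a : Fin n → F) : IsUni (colM c a) := by
  intro i j hji
  unfold colM
  rw [if_neg, add_zero]
  rintro ⟨rfl, h⟩
  exact absurd h (not_lt.mpr hji)

/-- the identity matrix with the entries `a l` added in the row `r`, right of the diagonal -/
def rowM (r : Fin n) (a : Fin n → F) : Matrix (Fin n) (Fin n) F :=
  fun i j => (1 : Matrix (Fin n) (Fin n) F) i j + if i = r ∧ r < j then a j else 0

lemma rowM_uni (r : Fin n) (a : Fin n → F) : IsUni (rowM r a) := by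
  intro i j hji
  unfold rowM
  rw [if_neg, add_zero]
  rintro ⟨rfl, h⟩
  exact absurd h (not_lt.mpr hji)

/-- right multiplication by `colM`: a column operation -/
lemma mul_colM (x : Matrix (Fin n) (Fin n) F) (c : Fin n) (a : Fin n → F) (m j : Fin n) :
    (x * colM c a) m j = x m j + if j = c then ∑ l, (if l < c then x m l * a l else 0) else 0 := by
  rw [Matrix.mul_apply]
  unfold colM
  simp only [mul_add, Finset.sum_add_distrib]
  congr 1
  · simp [Matrix.one_apply]
  · split_ifs with h
    · refine Finset.sum_congr rfl fun l _ => ?_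
      by_cases hl : l < c <;> simp [h, hl]
    · refine Finset.sum_eq_zero fun l _ => ?_
      simp [h]

/-- left multiplication by `colM`: add multiples of row `c` to the rows above -/
lemma colM_mul (x : Matrix (Fin n) (Fin n) F) (c : Fin n) (a : Fin n → F) (m j : Fin n) :
    (colM c a * x) m j = x m j + if m < c then a m * x c j else 0 := by
  rw [Matrix.mul_apply]
  unfold colM
  simp only [add_mul, Finset.sum_add_distrib]
  congr 1
  · simp [Matrix.one_apply]
  · rw [Finset.sum_eq_single c]
    · by_cases h : m < c <;> simp [h]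
    · intro l _ hl
      simp [hl]
    · intro h
      exact absurd (Finset.mem_univ _) h

/-- right multiplication by `rowM`: add multiples of column `r` to the columns on the right -/
lemma mul_rowM (x : Matrix (Fin n) (Fin n) F) (r : Fin n) (a : Fin n → F) (m j : Fin n) :
    (x * rowM r a) m j = x m j + if r < j then x m r * a j else 0 := by
  rw [Matrix.mul_apply]
  unfold rowM
  simp only [mul_add, Finset.sum_add_distrib]
  congr 1
  · simp [Matrix.one_apply]
  · rw [Finset.sum_eq_single r]
    · by_cases h : r < j <;> simp [h]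
    · intro l _ hl
      simp [hl]
    · intro h
      exact absurd (Finset.mem_univ _) h

/-! ### reduction to monomial form -/

/-- the columns with index `< c` form a monomial matrix -/
def MonoUpTo (x : Matrix (Fin n) (Fin n) F) (c : ℕ) : Prop :=
  (∀ i j k : Fin n, (j : ℕ) < c → (k : ℕ) < c → x i j ≠ 0 → x i k ≠ 0 → j = k) ∧
  (∀ i k j : Fin n, (j : ℕ) < c → x i j ≠ 0 → x k j ≠ 0 → i = k)

/-- a monomial matrix: at most one nonzero entry in every row and every column -/
def Mono (x : Matrix (Fin n) (Fin n) F) : Prop :=
  (∀ i j k : Fin n, x i j ≠ 0 → x i k ≠ 0 → j = k) ∧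
  (∀ i k j : Fin n, x i j ≠ 0 → x k j ≠ 0 → i = k)

/-- step A: clear the entries of column `c` in the pivot rows -/
lemma stepA (x : Matrix (Fin n) (Fin n) F) (c : Fin n) (h : MonoUpTo x c) :
    ∃ v : Uni n F, (∀ i j : Fin n, j < c → (x * mat v) i j = x i j) ∧
      (∀ i j : Fin n, j < c → x i j ≠ 0 → (x * mat v) i c = 0) := by
  -- the pivot row of a column
  let a : Fin n → F := fun l => if hl : ∃ i, x i l ≠ 0 then - x hl.choose c / x hl.choose l else 0
  refine ⟨mkU _ (colM_uni c a), ?_, ?_⟩
  · intro i j hj
    rw [mat_mkU, mul_colM, if_neg hj.ne, add_zero]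
  · intro i j hj hij
    rw [mat_mkU, mul_colM, if_pos rfl]
    rw [Finset.sum_eq_single j]
    · rw [if_pos hj]
      have hex : ∃ i, x i j ≠ 0 := ⟨i, hij⟩
      have hch : hex.choose = i := h.2 _ _ j hj hex.choose_spec hij
      simp only [a, dif_pos hex, hch]
      rw [mul_div_cancel₀ _ hij, add_neg_cancel]
    · intro l _ hl
      split_ifs with hlc
      · have : x i l = 0 := by
          by_contra hn
          exact hl (h.1 i l j hlc hj hn hij)
        rw [this, zero_mul]
      · rfl
    · intro h'
      exact absurd (Finset.mem_univ _) h'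

/-- step B: clear the column `c` above its lowest nonzero entry -/
lemma stepB (x : Matrix (Fin n) (Fin n) F) (c : Fin n) (h : MonoUpTo x c)
    (h0 : ∀ i j : Fin n, j < c → x i j ≠ 0 → x i c = 0) :
    ∃ u : Uni n F, MonoUpTo (mat u * x) (c + 1) := by
  by_cases hz : ∃ i, x i c ≠ 0
  · -- the lowest nonzero entry
    obtain ⟨k, hk, hmax⟩ : ∃ k, x k c ≠ 0 ∧ ∀ i, x i c ≠ 0 → i ≤ k := by
      have hne : (Finset.univ.filter (fun i => x i c ≠ 0)).Nonempty := by
        obtain ⟨i, hi⟩ := hz
        exact ⟨i, by simp [hi]⟩
      refine ⟨Finset.max' _ hne, ?_, ?_⟩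
      · have := Finset.max'_mem _ hne
        simpa using this
      · intro i hi
        exact Finset.le_max' _ i (by simp [hi])
    let a : Fin n → F := fun m => - x m c / x k c
    have hrow : ∀ j, j < c → x k j = 0 := by
      intro j hj
      by_contra hn
      exact hk (h0 k j hj hn)
    have hlt : ∀ m j : Fin n, j < c → (mat (mkU _ (colM_uni k a)) * x) m j = x m j := by
      intro m j hj
      rw [mat_mkU, colM_mul, hrow j hj, mul_zero, ite_self, add_zero]
    have hcol : ∀ m : Fin n, (mat (mkU _ (colM_uni k a)) * x) m c = if m = k then x k c else 0 := by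
      intro m
      rw [mat_mkU, colM_mul]
      rcases lt_trichotomy m k with hm | hm | hm
      · rw [if_pos hm, if_neg hm.ne]
        simp only [a]
        rw [div_mul_cancel₀ _ hk, add_neg_cancel]
      · subst hm
        rw [if_neg (lt_irrefl _), if_pos rfl, add_zero]
      · rw [if_neg (not_lt.mpr hm.le), if_neg hm.ne', add_zero]
        by_contra hn
        exact absurd (hmax m hn) (not_le.mpr hm)
    refine ⟨mkU _ (colM_uni k a), ?_, ?_⟩
    · intro i j l hj hl hij hil
      rcases Nat.lt_succ_iff_lt_or_eq.mp hj with hj' | hj'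
      · rcases Nat.lt_succ_iff_lt_or_eq.mp hl with hl' | hl'
        · rw [hlt i j hj'] at hij
          rw [hlt i l hl'] at hil
          exact h.1 i j l hj' hl' hij hil
        · have : l = c := Fin.ext hl'
          subst this
          rw [hcol i] at hil
          by_cases hik : i = k
          · subst hik
            rw [hlt i j hj'] at hij
            exact absurd (hrow j hj') hij
          · rw [if_neg hik] at hil
            exact absurd rfl hil
      · have : j = c := Fin.ext hj'
        subst this
        rcases Nat.lt_succ_iff_lt_or_eq.mp hl with hl' | hl'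
        · rw [hcol i] at hij
          by_cases hik : i = k
          · subst hik
            rw [hlt i l hl'] at hil
            exact absurd (hrow l hl') hil
          · rw [if_neg hik] at hij
            exact absurd rfl hij
        · exact (Fin.ext hl').symm
    · intro i l j hj hij hlj
      rcases Nat.lt_succ_iff_lt_or_eq.mp hj with hj' | hj'
      · rw [hlt i j hj'] at hij
        rw [hlt l j hj'] at hlj
        exact h.2 i l j hj' hij hlj
      · have : j = c := Fin.ext hj'
        subst this
        rw [hcol i] at hij
        rw [hcol l] at hlj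
        by_cases hik : i = k
        · by_cases hlk : l = k
          · rw [hik, hlk]
          · rw [if_neg hlk] at hlj
            exact absurd rfl hlj
        · rw [if_neg hik] at hij
          exact absurd rfl hij
  · push Not at hz
    refine ⟨1, ?_⟩
    rw [mat_one, one_mul]
    constructor
    · intro i j l hj hl hij hil
      rcases Nat.lt_succ_iff_lt_or_eq.mp hj with hj' | hj'
      · rcases Nat.lt_succ_iff_lt_or_eq.mp hl with hl' | hl'
        · exact h.1 i j l hj' hl' hij hil
        · have : l = c := Fin.ext hl'
          subst this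
          exact absurd (hz i) hil
      · have : j = c := Fin.ext hj'
        subst this
        exact absurd (hz i) hij
    · intro i l j hj hij hlj
      rcases Nat.lt_succ_iff_lt_or_eq.mp hj with hj' | hj'
      · exact h.2 i l j hj' hij hlj
      · have : j = c := Fin.ext hj'
        subst this
        exact absurd (hz i) hij

lemma exists_monoUpTo (x : Matrix (Fin n) (Fin n) F) (c : ℕ) (hc : c ≤ n) :
    ∃ u v : Uni n F, MonoUpTo (mat u * x * mat v) c := by
  induction c with
  | zero =>
    refine ⟨1, 1, ?_, ?_⟩
    · intro i j k hj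
      exact absurd hj (Nat.not_lt_zero _)
    · intro i j k hj
      exact absurd hj (Nat.not_lt_zero _)
  | succ c ih =>
    obtain ⟨u, v, huv⟩ := ih (Nat.le_of_succ_le hc)
    let c' : Fin n := ⟨c, hc⟩
    obtain ⟨v', h1, h2⟩ := stepA (mat u * x * mat v) c' huv
    have hmono : MonoUpTo (mat u * x * mat v * mat v') c' := by
      constructor
      · intro i j k hj hk hij hik
        rw [h1 i j hj] at hij
        rw [h1 i k hk] at hik
        exact huv.1 i j k hj hk hij hik
      · intro i k j hj hij hkj
        rw [h1 i j hj] at hij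
        rw [h1 k j hj] at hkj
        exact huv.2 i k j hj hij hkj
    obtain ⟨u', hu'⟩ := stepB (mat u * x * mat v * mat v') c' hmono
      (fun i j hj hij => h2 i j hj (by rwa [h1 i j hj] at hij))
    refine ⟨u' * u, v * v', ?_⟩
    have e : mat (u' * u) * x * mat (v * v') = mat u' * (mat u * x * mat v * mat v') := by
      rw [mat_mul, mat_mul]
      simp only [mul_assoc]
    rw [e]
    exact hu'

lemma exists_mono (x : Nil n F) : ∃ u v : Uni n F, Mono (twist u v x).1 := by
  obtain ⟨u, v, h⟩ := exists_monoUpTo x.1 n le_rfl
  refine ⟨u, v, ?_, ?_⟩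
  · intro i j k hij hik
    exact h.1 i j k j.2 k.2 hij hik
  · intro i k j hij hkj
    exact h.2 i k j j.2 hij hkj

/-! ### the values of the single-box supercharacters -/

variable [Finite F]

/-- the double sum over the group -/
def dbl (θ : AddChar F ℂ) (i j : Fin n) (a : F) (x : Nil n F) : ℂ :=
  ∑ v : Uni n F, ∑ u : Uni n F, θ (a * (twist u v x).1 i j)

lemma dbl_twist (θ : AddChar F ℂ) (i j : Fin n) (a : F) (x : Nil n F) (u v : Uni n F) :
    dbl θ i j a (twist u v x) = dbl θ i j a x := by
  unfold dbl
  rw [← Equiv.sum_comp (Equiv.mulLeft v) (fun v' => ∑ u' : Uni n F, θ (a * (twist u' v' x).1 i j))]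
  refine Finset.sum_congr rfl fun v' _ => ?_
  rw [← Equiv.sum_comp (Equiv.mulRight u)
    (fun u' => θ (a * (twist u' ((Equiv.mulLeft v) v') x).1 i j))]
  refine Finset.sum_congr rfl fun u' _ => ?_
  rw [twist_twist]
  rfl

lemma abs_theta (θ : AddChar F ℂ) (a : F) : ‖θ a‖ = 1 := by
  exact AddChar.norm_apply θ a

/-- the inner sum -/
lemma inner_sum {θ : AddChar F ℂ} (hθ : θ ≠ 1) (i j : Fin n) {a : F} (ha : a ≠ 0)
    (x : Nil n F) (v : Uni n F) :
    ∑ u : Uni n F, θ (a * (twist u v x).1 i j)
      = if ∀ k, i < k → (x.1 * mat v) k j = 0 then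
          (Fintype.card (Uni n F) : ℂ) * θ (a * (x.1 * mat v) i j) else 0 := by
  have hval : ∀ u : Uni n F, (twist u v x).1 i j = ∑ k, mat u i k * (x.1 * mat v) k j := by
    intro u
    rw [twist_apply, mul_assoc, Matrix.mul_apply]
  split_ifs with h
  · have h1 : ∀ u : Uni n F, (twist u v x).1 i j = (x.1 * mat v) i j := by
      intro u
      rw [hval, Finset.sum_eq_single i]
      · rw [mat_uni u i i le_rfl, Matrix.one_apply_eq, one_mul]
      · intro k _ hk
        rcases lt_or_gt_of_ne hk with h' | h'
        · rw [mat_uni u i k h'.le, Matrix.one_apply_ne (Ne.symm hk), zero_mul]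
        · rw [h k h', mul_zero]
      · intro h'
        exact absurd (Finset.mem_univ _) h'
    simp_rw [h1]
    simp
  · push Not at h
    obtain ⟨k, hik, hk⟩ := h
    obtain ⟨c, hc⟩ := exists_ne_one hθ (mul_ne_zero ha hk)
    -- right translation by 1 + c E_ik
    let t : Uni n F := mkU _ (rowM_uni i (fun m => if m = k then c else 0))
    have h1 : ∀ u : Uni n F, (twist (u * t) v x).1 i j
        = (twist u v x).1 i j + c * (x.1 * mat v) k j := by
      intro u
      rw [hval, hval, mat_mul]
      simp only [t, mat_mkU, mul_rowM, add_mul, Finset.sum_add_distrib]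
      congr 1
      rw [Finset.sum_eq_single k]
      · rw [if_pos hik, if_pos rfl, mat_uni u i i le_rfl, Matrix.one_apply_eq, one_mul]
      · intro m _ hm
        split_ifs <;> simp
      · intro h'
        exact absurd (Finset.mem_univ _) h'
    have h2 : ∑ u : Uni n F, θ (a * (twist u v x).1 i j)
        = θ (c * (a * (x.1 * mat v) k j)) * ∑ u : Uni n F, θ (a * (twist u v x).1 i j) := by
      rw [Finset.mul_sum]
      rw [← Equiv.sum_comp (Equiv.mulRight t) (fun u => θ (a * (twist u v x).1 i j))]
      refine Finset.sum_congr rfl fun u _ => ?_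
      rw [Equiv.coe_mulRight, h1, mul_add, AddChar.map_add_eq_mul, mul_comm]
      congr 2
      ring
    have h3 : (1 - θ (c * (a * (x.1 * mat v) k j))) * ∑ u : Uni n F, θ (a * (twist u v x).1 i j)
        = 0 := by
      rw [sub_mul, one_mul, ← h2, sub_self]
    rcases mul_eq_zero.mp h3 with h4 | h4
    · exact absurd (sub_eq_zero.mp h4).symm hc
    · exact h4

/-- the box `(i, j)` is not seen by `x` -/
def Good (x : Nil n F) (i j : Fin n) : Prop :=
  (∀ k, k < j → x.1 i k = 0) ∧ (∀ l, i < l → x.1 l j = 0)

lemma dbl_good {θ : AddChar F ℂ} (hθ : θ ≠ 1) {i j : Fin n} {a : F} (ha : a ≠ 0)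
    {x : Nil n F} (h : Good x i j) :
    ∃ m : ℕ, 0 < m ∧ dbl θ i j a x = m * θ (a * x.1 i j) := by
  have hx : ∀ v : Uni n F, (x.1 * mat v) i j = x.1 i j := by
    intro v
    rw [Matrix.mul_apply, Finset.sum_eq_single j]
    · rw [mat_uni v j j le_rfl, Matrix.one_apply_eq, mul_one]
    · intro k _ hk
      rcases lt_or_gt_of_ne hk with h' | h'
      · rw [h.1 k h', zero_mul]
      · rw [mat_uni v k j h'.le, Matrix.one_apply_ne hk, mul_zero]
    · intro h'
      exact absurd (Finset.mem_univ _) h'
  unfold dbl
  simp_rw [inner_sum hθ i j ha x, hx]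
  rw [← Finset.sum_filter, Finset.sum_const, nsmul_eq_mul]
  refine ⟨(Finset.univ.filter (fun v : Uni n F => ∀ k, i < k → (x.1 * mat v) k j = 0)).card
    * Fintype.card (Uni n F), ?_, ?_⟩
  · apply Nat.mul_pos
    · apply Finset.card_pos.mpr
      refine ⟨1, ?_⟩
      simp only [Finset.mem_filter, Finset.mem_univ, true_and]
      intro k hk
      rw [mat_one, mul_one]
      exact h.2 k hk
    · exact Fintype.card_pos
  · push_cast
    ring

lemma dbl_bad {θ : AddChar F ℂ} (hθ : θ ≠ 1) {i j : Fin n} {a : F} (ha : a ≠ 0)
    {x : Nil n F} (hm : Mono x.1) (h : ¬ Good x i j) : dbl θ i j a x = 0 := by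
  by_cases h2 : ∀ l, i < l → x.1 l j = 0
  · -- a nonzero entry in row i, left of column j
    have h1 : ∃ k, k < j ∧ x.1 i k ≠ 0 := by
      by_contra hn
      push Not at hn
      exact h ⟨hn, h2⟩
    obtain ⟨k, hkj, hk⟩ := h1
    obtain ⟨c, hc⟩ := exists_ne_one hθ (mul_ne_zero ha hk)
    let t : Uni n F := mkU _ (colM_uni j (fun m => if m = k then c else 0))
    have ht : ∀ v : Uni n F, ∀ m : Fin n, (x.1 * mat (t * v)) m j
        = (x.1 * mat v) m j + c * x.1 m k := by
      intro v m
      rw [mat_mul, ← mul_assoc, Matrix.mul_apply, Matrix.mul_apply]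
      simp only [t, mat_mkU, mul_colM, add_mul, Finset.sum_add_distrib]
      congr 1
      rw [Finset.sum_eq_single j]
      · rw [if_pos rfl, mat_uni v j j le_rfl, Matrix.one_apply_eq, mul_one,
          Finset.sum_eq_single k]
        · rw [if_pos hkj, if_pos rfl, mul_comm]
        · intro l _ hl
          rw [if_neg hl, mul_zero, ite_self]
        · intro h'
          exact absurd (Finset.mem_univ _) h'
      · intro m' _ hm'
        rw [if_neg hm', zero_mul]
      · intro h'
        exact absurd (Finset.mem_univ _) h'
    have h3 : dbl θ i j a x = θ (c * (a * x.1 i k)) * dbl θ i j a x := by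
      unfold dbl
      simp_rw [inner_sum hθ i j ha x]
      rw [Finset.mul_sum]
      rw [← Equiv.sum_comp (Equiv.mulLeft t) (fun v : Uni n F =>
        if ∀ k, i < k → (x.1 * mat v) k j = 0 then
          (Fintype.card (Uni n F) : ℂ) * θ (a * (x.1 * mat v) i j) else 0)]
      refine Finset.sum_congr rfl fun v _ => ?_
      rw [Equiv.coe_mulLeft]
      have h4 : (∀ l, i < l → (x.1 * mat (t * v)) l j = 0) ↔ (∀ l, i < l → (x.1 * mat v) l j = 0) := by
        refine forall_congr' fun l => imp_congr_right fun hl => ?_
        have h5 : x.1 l k = 0 := by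
          by_contra hn
          exact hl.ne (hm.2 i l k hk hn)
        rw [ht, h5, mul_zero, add_zero]
      by_cases h6 : ∀ l, i < l → (x.1 * mat v) l j = 0
      · rw [if_pos h6, if_pos (h4.mpr h6), ht, mul_add, AddChar.map_add_eq_mul]
        have : a * (c * x.1 i k) = c * (a * x.1 i k) := by ring
        rw [this]
        ring
      · rw [if_neg h6, if_neg (fun h7 => h6 (h4.mp h7)), mul_zero]
    have h8 : (1 - θ (c * (a * x.1 i k))) * dbl θ i j a x = 0 := by
      rw [sub_mul, one_mul, ← h3, sub_self]
    rcases mul_eq_zero.mp h8 with h4 | h4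
    · exact absurd (sub_eq_zero.mp h4).symm hc
    · exact h4
  · push Not at h2
    obtain ⟨l, hil, hl⟩ := h2
    unfold dbl
    refine Finset.sum_eq_zero fun v _ => ?_
    rw [inner_sum hθ i j ha x, if_neg]
    intro h3
    have h4 := h3 l hil
    rw [Matrix.mul_apply, Finset.sum_eq_single j] at h4
    · rw [mat_uni v j j le_rfl, Matrix.one_apply_eq, mul_one] at h4
      exact hl h4
    · intro k _ hk
      have : x.1 l k = 0 := by
        by_contra hn
        exact hk (hm.1 l k j hn hl)
      rw [this, zero_mul]
    · intro h'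
      exact absurd (Finset.mem_univ _) h'

/-- a monomial matrix is determined by the double sums -/
lemma mono_eq {θ : AddChar F ℂ} (hθ : θ ≠ 1) {x y : Nil n F} (hx : Mono x.1) (hy : Mono y.1)
    (h : ∀ i j : Fin n, i < j → ∀ a : F, a ≠ 0 → dbl θ i j a x = dbl θ i j a y) : x = y := by
  apply Subtype.ext
  funext i j
  rcases lt_or_ge i j with hij | hij
  swap
  · rw [x.2 i j hij, y.2 i j hij]
  have hbad : ∀ z : Nil n F, Mono z.1 → ¬ Good z i j → z.1 i j = 0 := by
    intro z hz hb
    by_contra hn
    apply hb
    constructor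
    · intro k hk
      by_contra hk'
      exact hk.ne (hz.1 i k j hk' hn)
    · intro l hl
      by_contra hl'
      exact hl.ne' (hz.2 l i j hl' hn)
  by_cases hgx : Good x i j
  · by_cases hgy : Good y i j
    · -- both good
      by_contra hne
      have hne' : x.1 i j - y.1 i j ≠ 0 := sub_ne_zero.mpr hne
      obtain ⟨a, ha⟩ := exists_ne_one hθ hne'
      have ha0 : a ≠ 0 := by
        rintro rfl
        rw [zero_mul, AddChar.map_zero_eq_one] at ha
        exact ha rfl
      obtain ⟨m, hm, h1⟩ := dbl_good hθ ha0 hgx
      obtain ⟨m', hm', h2⟩ := dbl_good hθ ha0 hgy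
      have h3 := h i j hij a ha0
      rw [h1, h2] at h3
      have h4 := congrArg norm h3
      rw [norm_mul, norm_mul, abs_theta, abs_theta, mul_one, mul_one, Complex.norm_natCast,
        Complex.norm_natCast] at h4
      have h5 : m = m' := by exact_mod_cast h4
      subst h5
      have h6 : (m : ℂ) ≠ 0 := by exact_mod_cast hm.ne'
      have h7 := mul_left_cancel₀ h6 h3
      apply ha
      rw [mul_sub, AddChar.map_sub_eq_div, h7, div_self]
      intro h8
      have := abs_theta θ (a * y.1 i j)
      rw [h8, norm_zero] at this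
      exact zero_ne_one this
    · obtain ⟨m, hm, h1⟩ := dbl_good hθ one_ne_zero hgx
      have h2 := dbl_bad hθ one_ne_zero hy hgy
      have h3 := h i j hij 1 one_ne_zero
      rw [h1, h2] at h3
      exfalso
      rcases mul_eq_zero.mp h3 with h4 | h4
      · exact absurd (by exact_mod_cast h4) hm.ne'
      · have := abs_theta θ (1 * x.1 i j)
        rw [h4, norm_zero] at this
        exact zero_ne_one this
  · by_cases hgy : Good y i j
    · obtain ⟨m, hm, h1⟩ := dbl_good hθ one_ne_zero hgy
      have h2 := dbl_bad hθ one_ne_zero hx hgx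
      have h3 := h i j hij 1 one_ne_zero
      rw [h1, h2] at h3
      exfalso
      rcases mul_eq_zero.mp h3.symm with h4 | h4
      · exact absurd (by exact_mod_cast h4) hm.ne'
      · have := abs_theta θ (1 * y.1 i j)
        rw [h4, norm_zero] at this
        exact zero_ne_one this
    · rw [hbad x hx hgx, hbad y hy hgy]

end Pool.Agent.Run7.h942.SC
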