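import Pool.Agent.Run7.h942.SC.Andre
import Pool.Agent.Run7.h942.SC.Mono

/-!
# The single-box characters: irreducibility, and separation of the superclasses
-/

set_option linter.unusedSectionVars false
set_option linter.style.haveILetI false

open scoped BigOperators Classical

noncomputable section

namespace Pool.Agent.Run7.h942.SC

open Pool.Agent.Helper884.IC Pool.Agent.Y63.AWC

variable {n : ℕ} {F : Type} [Field F]

/-! ### the two-sided orbit of a box is a single conjugation orbit -/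

lemma row_inv (r : Fin n) (a : Fin n → F) (l m : Fin n) (h : l ≠ r) :
    mat (mkU _ (rowM_uni r a))⁻¹ l m = (1 : Matrix (Fin n) (Fin n) F) l m := by
  have h1 := mat_mul_inv (mkU _ (rowM_uni r a))
  have h2 := congrFun (congrFun h1 l) m
  rw [Matrix.mul_apply, Finset.sum_eq_single l] at h2
  · rw [mat_mkU] at h2
    unfold rowM at h2
    rw [if_neg (fun h' => h h'.1), add_zero, Matrix.one_apply_eq, one_mul] at h2
    exact h2
  · intro k _ hk
    rw [mat_mkU]
    unfold rowM
    rw [if_neg (fun h' => h h'.1), add_zero, Matrix.one_apply_ne (Ne.symm hk), zero_mul]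
  · intro h'
    exact absurd (Finset.mem_univ _) h'

lemma col_inv (c : Fin n) (a : Fin n → F) (l m : Fin n) (h : m ≠ c) :
    mat (mkU _ (colM_uni c a))⁻¹ l m = (1 : Matrix (Fin n) (Fin n) F) l m := by
  have h1 := mat_inv_mul (mkU _ (colM_uni c a))
  have h2 := congrFun (congrFun h1 l) m
  rw [Matrix.mul_apply, Finset.sum_eq_single m] at h2
  · rw [mat_mkU] at h2
    unfold colM at h2
    rw [if_neg (fun h' => h h'.1), add_zero, Matrix.one_apply_eq, mul_one] at h2
    exact h2
  · intro k _ hk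
    rw [mat_mkU]
    unfold colM
    rw [if_neg (fun h' => h h'.1), add_zero, Matrix.one_apply_ne hk, mul_zero]
  · intro h'
    exact absurd (Finset.mem_univ _) h'

lemma box_twist (i j : Fin n) (a : F) (u v : Uni n F) (x : Nil n F) :
    (box i j a ∘ₗ twist u v) x = a * ∑ k, ∑ l, mat u i k * x.1 k l * mat v l j := by
  show a * (mat u * x.1 * mat v) i j = _
  congr 1
  rw [Matrix.mul_apply]
  simp only [Matrix.mul_apply, Finset.sum_mul]
  rw [Finset.sum_comm]

lemma box_conj (i j : Fin n) (a : F) (u v : Uni n F) :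
    ∃ w : Uni n F, box i j a ∘ₗ twist u v = box i j a ∘ₗ twist w w⁻¹ := by
  let A : Uni n F := mkU _ (rowM_uni i (fun k => if k < j then mat u i k else 0))
  let C : Uni n F := mkU _ (colM_uni j (fun l => if i < l then mat v l j else 0))
  refine ⟨A * C⁻¹, ?_⟩
  have hinv : (A * C⁻¹)⁻¹ = C * A⁻¹ := by group
  apply LinearMap.ext
  intro x
  rw [box_twist, box_twist, hinv]
  congr 1
  refine Finset.sum_congr rfl fun k _ => Finset.sum_congr rfl fun l _ => ?_
  rcases lt_or_ge k l with hkl | hkl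
  swap
  · rw [x.2 k l hkl, mul_zero, mul_zero, zero_mul, zero_mul]
  rcases lt_or_ge j l with hjl | hlj
  · rw [mat_uni v l j hjl.le, mat_uni (C * A⁻¹) l j hjl.le, Matrix.one_apply_ne (ne_of_gt hjl),
      mul_zero, mul_zero]
  have hkj : k < j := lt_of_lt_of_le hkl hlj
  rcases lt_or_ge k i with hki | hik
  · rw [mat_uni u i k hki.le, mat_uni (A * C⁻¹) i k hki.le, Matrix.one_apply_ne (ne_of_gt hki),
      zero_mul, zero_mul, zero_mul]
  have hil : i < l := lt_of_le_of_lt hik hkl
  have h1 : mat (A * C⁻¹) i k = mat u i k := by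
    rw [mat_mul, Matrix.mul_apply, Finset.sum_eq_single k]
    · rw [col_inv j _ k k hkj.ne, Matrix.one_apply_eq, mul_one]
      show mat (mkU _ (rowM_uni i (fun k => if k < j then mat u i k else 0))) i k = _
      rw [mat_mkU]
      unfold rowM
      rcases eq_or_lt_of_le hik with h | h
      · subst h
        rw [if_neg (fun h' => lt_irrefl _ h'.2), add_zero, mat_uni u i i le_rfl]
      · rw [if_pos ⟨rfl, h⟩, Matrix.one_apply_ne h.ne, zero_add]
        exact if_pos hkj
    · intro m _ hm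
      rw [col_inv j _ m k hkj.ne, Matrix.one_apply_ne hm, mul_zero]
    · intro h'
      exact absurd (Finset.mem_univ _) h'
  have h2 : mat (C * A⁻¹) l j = mat v l j := by
    rw [mat_mul, Matrix.mul_apply]
    have h3 : ∀ m, mat C l m * mat A⁻¹ m j = if m = j then mat C l j else 0 := by
      intro m
      by_cases hmi : m = i
      · -- then C l i = 0 because i < l
        subst hmi
        rw [mat_uni C l m hil.le, Matrix.one_apply_ne (ne_of_gt hil), zero_mul]
        rw [if_neg (lt_of_lt_of_le hil hlj).ne]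
      · rw [row_inv i _ m j hmi, Matrix.one_apply]
        split_ifs with h
        · rw [h, mul_one]
        · rw [mul_zero]
    simp_rw [h3]
    rw [Finset.sum_ite_eq' Finset.univ j, if_pos (Finset.mem_univ _)]
    show mat (mkU _ (colM_uni j (fun l => if i < l then mat v l j else 0))) l j = _
    rw [mat_mkU]
    unfold colM
    rcases eq_or_lt_of_le hlj with h | h
    · subst h
      rw [if_neg (fun h' => lt_irrefl _ h'.2), add_zero, mat_uni v l l le_rfl]
    · rw [if_pos ⟨rfl, h⟩, Matrix.one_apply_ne h.ne, zero_add]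
      exact if_pos hil
  rw [h1, h2]

variable [Finite F]

lemma hat_conj (θ : AddChar F ℂ) {ψ : Uni n F → ℂ} (h : IsClass ψ)
    (μ : Module.Dual F (Nil n F)) (w : Uni n F) : hat θ ψ (μ ∘ₗ twist w w⁻¹) = hat θ ψ μ := by
  unfold hat
  congr 1
  rw [← Equiv.sum_comp (MulAut.conj w).toEquiv (fun g => ψ g * θ (-μ (sub1 g)))]
  refine Finset.sum_congr rfl fun g _ => ?_
  have e : (MulAut.conj w).toEquiv g = w * g * w⁻¹ := by simp
  rw [e, h, sub1_conj]
  rfl

/-- an irreducible character in the block of a box is a multiple of the orbit sum -/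
lemma irr_box {θ : AddChar F ℂ} (hθ : θ ≠ 1) (i j : Fin n) (a : F)
    (ψ : {χ : Uni n F → ℂ // IsIrrChar χ}) (h : orbSetoid n F (box i j a) (pick hθ ψ)) :
    ∃ c : ℝ, 0 < c ∧ ∀ g, ψ.1 g = c * orbitSum θ (box i j a) g := by
  have h1 : ∀ g, ψ.1 g = hat θ ψ.1 (box i j a) * orbitSum θ (box i j a) g := by
    intro g
    rw [orbitSum_eq, Finset.mul_sum]
    conv_lhs => rw [expand_hat hθ ψ.1 g]
    refine Finset.sum_congr rfl fun μ _ => ?_
    split_ifs with hμ
    · obtain ⟨u, v, rfl⟩ := hμ
      obtain ⟨w, hw⟩ := box_conj i j a u v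
      rw [hw, hat_conj θ ψ.2.isClass]
    · by_cases h5 : hat θ ψ.1 μ = 0
      · rw [h5, zero_mul, mul_zero]
      · exact absurd ((orbSetoid n F).trans h (supp hθ ψ h5)) hμ
  obtain ⟨d, hd, h2⟩ := deg_nat ψ.2
  obtain ⟨m, hm, h3⟩ := orbitSum_one θ (box i j a)
  have h4 := h1 1
  rw [h2, h3] at h4
  have hm' : (m : ℂ) ≠ 0 := by exact_mod_cast hm.ne'
  refine ⟨(d : ℝ) / m, by positivity, fun g => ?_⟩
  rw [h1 g]
  congr 1
  rw [Complex.ofReal_div, Complex.ofReal_natCast, Complex.ofReal_natCast, h4]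
  field_simp

theorem andre_contains {θ : AddChar F ℂ} (hθ : θ ≠ 1) : ContainsBoxes θ (andre (n := n) hθ) := by
  intro i j _ a _
  obtain ⟨χ, hχ⟩ := pick_surj hθ (box i j a)
  obtain ⟨c, hc, h1⟩ := irr_box hθ i j a χ hχ
  refine ⟨χ, ⟨c, hc, h1⟩, ?_⟩
  intro ψ hψ
  obtain ⟨c', hc', h2⟩ := irr_box hθ i j a ψ ((orbSetoid n F).trans hχ hψ)
  have h3 : ψ.1 = ((c' / c : ℝ) : ℂ) • χ.1 := by
    funext g
    rw [Pi.smul_apply, smul_eq_mul, h1 g, h2 g]
    have : (c : ℂ) ≠ 0 := by exact_mod_cast hc.ne'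
    push_cast
    field_simp
  have h4 : B ψ.1 χ.1 = ((c' / c : ℝ) : ℂ) := by
    rw [h3, B_smul_left, B_irr χ.2 χ.2, if_pos rfl, mul_one]
  rw [B_irr ψ.2 χ.2] at h4
  by_contra hne
  rw [if_neg (fun e => hne (Subtype.ext e))] at h4
  have h5 : (c' / c : ℝ) ≠ 0 := (div_pos hc' hc).ne'
  exact h5 (by exact_mod_cast h4.symm)

/-! ### separation -/

lemma dbl_orbit (θ : AddChar F ℂ) (i j : Fin n) (a : F) :
    ∃ m : ℕ, ∀ g : Uni n F, dbl θ i j a (sub1 g) = m * orbitSum θ (box i j a) g := by
  let S : Finset (Uni n F × Uni n F) :=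
    Finset.univ.filter (fun p => box i j a ∘ₗ twist p.1 p.2 = box i j a)
  refine ⟨S.card, fun g => ?_⟩
  have h1 : dbl θ i j a (sub1 g)
      = ∑ p : Uni n F × Uni n F, θ ((box i j a ∘ₗ twist p.1 p.2) (sub1 g)) := by
    rw [Fintype.sum_prod_type, Finset.sum_comm]
    rfl
  have h2 : ∀ μ : Module.Dual F (Nil n F), orbSetoid n F (box i j a) μ →
      (Finset.univ.filter (fun p : Uni n F × Uni n F =>
        box i j a ∘ₗ twist p.1 p.2 = μ)).card = S.card := by
    rintro μ ⟨u, v, rfl⟩
    refine (Finset.card_bij' (fun p _ => (p.1 * u, v * p.2)) (fun p _ => (p.1 * u⁻¹, v⁻¹ * p.2))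
      ?_ ?_ ?_ ?_).symm
    · intro p hp
      simp only [S, Finset.mem_filter, Finset.mem_univ, true_and] at hp ⊢
      rw [← twist_comp, ← LinearMap.comp_assoc, hp]
    · intro p hp
      simp only [S, Finset.mem_filter, Finset.mem_univ, true_and] at hp ⊢
      rw [← twist_comp, ← LinearMap.comp_assoc, hp, LinearMap.comp_assoc, twist_comp,
        mul_inv_cancel, inv_mul_cancel, twist_one_one, LinearMap.comp_id]
    · intro p _
      simp
    · intro p _
      simp
  rw [h1, orbitSum_eq, Finset.mul_sum]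
  rw [← Finset.sum_fiberwise_of_maps_to (s := Finset.univ) (t := Finset.univ)
    (g := fun p : Uni n F × Uni n F => box i j a ∘ₗ twist p.1 p.2) (fun _ _ => Finset.mem_univ _)]
  refine Finset.sum_congr rfl fun μ _ => ?_
  split_ifs with hμ
  · rw [← h2 μ hμ]
    rw [Finset.sum_congr rfl (g := fun _ => θ (μ (sub1 g)))]
    · rw [Finset.sum_const, nsmul_eq_mul]
    · intro p hp
      simp only [Finset.mem_filter, Finset.mem_univ, true_and] at hp
      rw [hp]
  · rw [mul_zero]
    refine Finset.sum_eq_zero fun p hp => ?_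
    simp only [Finset.mem_filter, Finset.mem_univ, true_and] at hp
    exact absurd ⟨p.1, p.2, hp.symm⟩ hμ

/-- the single-box supercharacters separate the superclasses -/
theorem separate {θ : AddChar F ℂ} (hθ : θ ≠ 1) {g h : Uni n F}
    (H : ∀ i j : Fin n, i < j → ∀ a : F, a ≠ 0 →
      orbitSum θ (box i j a) g = orbitSum θ (box i j a) h) : AndreClasses g h := by
  obtain ⟨u, v, hm⟩ := exists_mono (sub1 g)
  obtain ⟨u', v', hm'⟩ := exists_mono (sub1 h)
  have h1 : twist u v (sub1 g) = twist u' v' (sub1 h) := by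
    apply mono_eq hθ hm hm'
    intro i j hij a ha
    rw [dbl_twist, dbl_twist]
    obtain ⟨m, h2⟩ := dbl_orbit (n := n) θ i j a
    rw [h2, h2, H i j hij a ha]
  show classSetoid n F g h
  refine class_iff.mpr ⟨u'⁻¹ * u, v * v'⁻¹, ?_⟩
  rw [← twist_twist, h1, twist_twist, inv_mul_cancel, mul_inv_cancel, twist_one]

theorem classes_le {θ : AddChar F ℂ} (hθ : θ ≠ 1) (T : SuperTheory (Uni n F))
    (hT : ContainsBoxes θ T) : T.classes ≤ (andre (n := n) hθ).classes := by
  intro g h e
  show AndreClasses g h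
  apply separate hθ
  intro i j hij a ha
  obtain ⟨χ, ⟨c, hc, h1⟩, h2⟩ := hT i j hij a ha
  have h3 := T.const χ g h e
  have h4 : ∀ k, superchar T.chars χ k = χ.1 1 * χ.1 k := by
    intro k
    rw [superchar_eq, Finset.sum_eq_single χ]
    · rw [if_pos (T.chars.refl χ)]
    · intro ψ _ hψ
      rw [if_neg (fun h' => hψ (h2 ψ h'))]
    · intro h'
      exact absurd (Finset.mem_univ _) h'
  rw [h4, h4] at h3
  have h5 := mul_left_cancel₀ (one_ne χ.2) h3
  rw [h1 g, h1 h] at h5
  have hc' : (c : ℂ) ≠ 0 := by exact_mod_cast hc.ne'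
  exact mul_left_cancel₀ hc' h5

/-- **Main theorem**: André's supercharacter theory exists, it contains the single-box
supercharacters as irreducible characters, and it is the coarsest one with this property. -/
theorem main (n : ℕ) (F : Type) [Field F] [Finite F] (θ : AddChar F ℂ) (hθ : θ ≠ 1) :
    ∃ T : SuperTheory (Uni n F), IsAndre θ T ∧ ContainsBoxes θ T ∧
      ∀ T' : SuperTheory (Uni n F), ContainsBoxes θ T' → T.Coarser T' :=
  ⟨andre hθ, isAndre hθ, andre_contains hθ, fun T' hT' =>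
    ⟨classes_le hθ T' hT', chars_le (classes_le hθ T' hT')⟩⟩

end Pool.Agent.Run7.h942.SC
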